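import Pool.Agent.Lib.MP_1a91b9_nuT.P.Defs
import Pool.Agent.Lib.MP_1a91b9_nuI.Phi

/-!
# The periods of `y² = x³ + a₂ x² + a₄ x + a₆` as Lebesgue integrals
-/

set_option autoImplicit false

namespace Pool.Agent.Lib.MP_1a91b9_nuI

open MeasureTheory WeierstrassCurve Pool.Agent.Lib.MP_1a91b9_nuT.Per

private theorem FibF_iff {F : Type*} [Field F] (W : WeierstrassCurve F) (h1 : W.a₁ = 0) (h3 : W.a₃ = 0)
    {x y d : F} (hd : d ^ 2 = x ^ 3 + W.a₂ * x ^ 2 + W.a₄ * x + W.a₆) :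
    W.toAffine.Equation x y ↔ y = d ∨ y = -d := by
  rw [eqn W h1 h3, ← hd, sq_eq_sq_iff_eq_or_eq_neg]

private theorem FibF_sum {F : Type*} [Field F] [CharZero F] (W : WeierstrassCurve F) (h1 : W.a₁ = 0)
    (h3 : W.a₃ = 0) {x d : F} (hd : d ^ 2 = x ^ 3 + W.a₂ * x ^ 2 + W.a₄ * x + W.a₆)
    (h0 : d ≠ 0) (f : F → ℝ) :
    ∑' y : {y : F // W.toAffine.Equation x y}, f y = f d + f (-d) := by
  classical
  have hne : d ≠ -d := by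
    intro h
    apply h0
    linear_combination h / 2
  have e : {y : F | W.toAffine.Equation x y} = (({d, -d} : Finset F) : Set F) := by
    ext y
    rw [Finset.coe_pair, Set.mem_ofPred_eq, FibF_iff W h1 h3 hd]
    rfl
  show ∑' y : ({y : F | W.toAffine.Equation x y} : Set F), f y = _
  rw [e, Finset.tsum_subtype', Finset.sum_pair hne]

private theorem FibF_zero {F : Type*} [Field F] (W : WeierstrassCurve F) (h1 : W.a₁ = 0)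
    (h3 : W.a₃ = 0) {x : F} (hx : x ^ 3 + W.a₂ * x ^ 2 + W.a₄ * x + W.a₆ = 0)
    (f : F → ℝ) (hf : f 0 = 0) :
    ∑' y : {y : F // W.toAffine.Equation x y}, f y = 0 := by
  have h : ∀ y : {y : F // W.toAffine.Equation x y}, f y = 0 := by
    rintro ⟨y, hy⟩
    have hd : (0 : F) ^ 2 = x ^ 3 + W.a₂ * x ^ 2 + W.a₄ * x + W.a₆ := by
      rw [hx]
      ring
    rw [FibF_iff W h1 h3 hd, neg_zero, or_self] at hy
    show f y = 0
    rw [hy, hf]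
  rw [tsum_congr h, tsum_zero]

private theorem FibF_C (W : WeierstrassCurve ℂ) (h1 : W.a₁ = 0) (h3 : W.a₃ = 0) (x : ℂ) :
    ∑' y : {y : ℂ // W.toAffine.Equation x y}, (‖2 * (y : ℂ) + W.a₁ * x + W.a₃‖ ^ 2)⁻¹ =
      2⁻¹ * ‖x ^ 3 + W.a₂ * x ^ 2 + W.a₄ * x + W.a₆‖⁻¹ := by
  rcases eq_or_ne (x ^ 3 + W.a₂ * x ^ 2 + W.a₄ * x + W.a₆) 0 with h | h
  · rw [h, FibF_zero W h1 h3 h (fun y => (‖2 * y + W.a₁ * x + W.a₃‖ ^ 2)⁻¹)
      (by rw [h1, h3]; norm_num)]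
    norm_num
  · obtain ⟨d, hd⟩ := IsAlgClosed.exists_pow_nat_eq (x ^ 3 + W.a₂ * x ^ 2 + W.a₄ * x + W.a₆)
      (n := 2) (by norm_num)
    have h0 : d ≠ 0 := by
      rintro rfl
      apply h
      rw [← hd]
      ring
    rw [FibF_sum W h1 h3 hd h0 (fun y => (‖2 * y + W.a₁ * x + W.a₃‖ ^ 2)⁻¹)]
    have e1 : 2 * d + W.a₁ * x + W.a₃ = 2 * d := by rw [h1, h3]; ring
    have e2 : 2 * (-d) + W.a₁ * x + W.a₃ = -(2 * d) := by rw [h1, h3]; ring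
    rw [e1, e2, norm_neg, norm_mul, mul_pow, ← norm_pow d, hd, mul_inv]
    norm_num
    ring

private theorem FibF_R (W : WeierstrassCurve ℝ) (h1 : W.a₁ = 0) (h3 : W.a₃ = 0) (x : ℝ) :
    ∑' y : {y : ℝ // W.toAffine.Equation x y}, |2 * (y : ℝ) + W.a₁ * x + W.a₃|⁻¹ =
      (Real.sqrt (x ^ 3 + W.a₂ * x ^ 2 + W.a₄ * x + W.a₆))⁻¹ := by
  rcases lt_trichotomy (x ^ 3 + W.a₂ * x ^ 2 + W.a₄ * x + W.a₆) 0 with h | h | h
  · have he : IsEmpty {y : ℝ // W.toAffine.Equation x y} := by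
      refine ⟨?_⟩
      rintro ⟨y, hy⟩
      rw [eqn W h1 h3] at hy
      rw [← hy] at h
      nlinarith [sq_nonneg y]
    rw [tsum_empty, Real.sqrt_eq_zero_of_nonpos h.le]
    norm_num
  · rw [h, FibF_zero W h1 h3 h (fun y => |2 * y + W.a₁ * x + W.a₃|⁻¹)
      (by rw [h1, h3]; norm_num)]
    norm_num
  · have hd := Real.sq_sqrt h.le
    have h0 := Real.sqrt_pos.2 h
    rw [FibF_sum W h1 h3 hd h0.ne' (fun y => |2 * y + W.a₁ * x + W.a₃|⁻¹)]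
    have e1 : 2 * √(x ^ 3 + W.a₂ * x ^ 2 + W.a₄ * x + W.a₆) + W.a₁ * x + W.a₃ =
        2 * √(x ^ 3 + W.a₂ * x ^ 2 + W.a₄ * x + W.a₆) := by rw [h1, h3]; ring
    have e2 : 2 * (-√(x ^ 3 + W.a₂ * x ^ 2 + W.a₄ * x + W.a₆)) + W.a₁ * x + W.a₃ =
        -(2 * √(x ^ 3 + W.a₂ * x ^ 2 + W.a₄ * x + W.a₆)) := by rw [h1, h3]; ring
    rw [e1, e2, abs_neg, abs_of_pos (by positivity), mul_inv]
    ring

theorem perC_eq (W : WeierstrassCurve ℂ) (h1 : W.a₁ = 0) (h3 : W.a₃ = 0) :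
    perC W = (∫⁻ x : ℂ, ENNReal.ofReal
      (2⁻¹ * ‖x ^ 3 + W.a₂ * x ^ 2 + W.a₄ * x + W.a₆‖⁻¹)).toReal := by
  rw [perC]
  simp_rw [FibF_C W h1 h3]
  refine integral_eq_lintegral_of_nonneg_ae (Filter.Eventually.of_forall fun x => ?_) ?_
  · show (0 : ℝ) ≤ 2⁻¹ * ‖x ^ 3 + W.a₂ * x ^ 2 + W.a₄ * x + W.a₆‖⁻¹
    positivity
  · have hc : Continuous (fun x : ℂ => ‖x ^ 3 + W.a₂ * x ^ 2 + W.a₄ * x + W.a₆‖) := by
      fun_prop
    exact (hc.measurable.inv.const_mul _).aestronglyMeasurable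

theorem perR_eq (W : WeierstrassCurve ℝ) (h1 : W.a₁ = 0) (h3 : W.a₃ = 0) :
    perR W = (∫⁻ x : ℝ, ENNReal.ofReal
      (Real.sqrt (x ^ 3 + W.a₂ * x ^ 2 + W.a₄ * x + W.a₆))⁻¹).toReal := by
  rw [perR]
  simp_rw [FibF_R W h1 h3]
  refine integral_eq_lintegral_of_nonneg_ae (Filter.Eventually.of_forall fun x => ?_) ?_
  · show (0 : ℝ) ≤ (Real.sqrt (x ^ 3 + W.a₂ * x ^ 2 + W.a₄ * x + W.a₆))⁻¹
    positivity
  · have hc : Continuous (fun x : ℝ => Real.sqrt (x ^ 3 + W.a₂ * x ^ 2 + W.a₄ * x + W.a₆)) := by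
      fun_prop
    exact hc.measurable.inv.aestronglyMeasurable

end Pool.Agent.Lib.MP_1a91b9_nuI
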