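import Pool.Agent.Lib.MP_1a91b9_nuI.Pe.AreaF
import Pool.Agent.Lib.MP_1a91b9_nuI.Pe.FibF

/-!
# The complex period under an isogeny of degree 2
-/

set_option autoImplicit false

namespace Pool.Agent.Lib.MP_1a91b9_nuI

open MeasureTheory WeierstrassCurve Pool.Agent.Lib.MP_1a91b9_nuT.Per

private theorem PC2_fin (c e : ℂ) : {y : ℂ | (y - c) ^ 2 = e}.Finite := by
  obtain ⟨d, hd⟩ := IsAlgClosed.exists_pow_nat_eq e (n := 2) (by norm_num)
  refine ((Set.finite_singleton (c - d)).insert (c + d)).subset ?_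
  intro y hy
  have hy' : (y - c) ^ 2 = e := hy
  have e1 : (y - (c + d)) * (y - (c - d)) = 0 := by
    linear_combination hy' - hd
  rcases mul_eq_zero.mp e1 with e2 | e2
  · exact Or.inl (sub_eq_zero.mp e2)
  · exact Or.inr (sub_eq_zero.mp e2)

private theorem PC2_fib (a b : ℂ) (hb : b ≠ 0) (X : ℂ) (hX : (X - a) ^ 2 ≠ 4 * b) :
    (({x : ℂ | x ≠ 0 ∧ x ^ 2 ≠ b} ∩ (fun x : ℂ => x + a + b * x⁻¹) ⁻¹' {X}).encard : ENNReal) = 2 := by
  obtain ⟨d, hd⟩ := IsAlgClosed.exists_pow_nat_eq ((X - a) ^ 2 - 4 * b) (n := 2) (by norm_num)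
  have hd0 : d ≠ 0 := by
    rintro rfl
    apply hX
    linear_combination -hd
  have hset : {x : ℂ | x ≠ 0 ∧ x ^ 2 ≠ b} ∩ (fun x : ℂ => x + a + b * x⁻¹) ⁻¹' {X}
      = {(X - a + d) / 2, (X - a - d) / 2} := by
    have hprod : ((X - a + d) / 2) * ((X - a - d) / 2) = b := by
      linear_combination (-1 / 4) * hd
    have haux : ∀ x : ℂ, x ≠ 0 → x ^ 2 + (a - X) * x + b = 0 → x + a + b * x⁻¹ = X := by
      intro x hx0 hx
      field_simp
      linear_combination hx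
    ext x
    constructor
    · rintro ⟨⟨hx0, hxb⟩, hx⟩
      have hx' : x + a + b * x⁻¹ = X := hx
      have e1 : x ^ 2 + (a - X) * x + b = 0 := by
        have e2 : x * (x + a + b * x⁻¹) = x * X := by rw [hx']
        have e3 : x * (x + a + b * x⁻¹) = x ^ 2 + a * x + b := by
          field_simp
        rw [e3] at e2
        linear_combination e2
      have e4 : (x - (X - a + d) / 2) * (x - (X - a - d) / 2) = 0 := by
        linear_combination e1 + (-1 / 4) * hd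
      rcases mul_eq_zero.mp e4 with e5 | e5
      · exact Or.inl (sub_eq_zero.mp e5)
      · exact Or.inr (sub_eq_zero.mp e5)
    · intro hx
      have hq : x ^ 2 + (a - X) * x + b = 0 := by
        rcases hx with hx | hx
        · rw [hx]
          linear_combination (1 / 4) * hd
        · have hx2 : x = (X - a - d) / 2 := hx
          rw [hx2]
          linear_combination (1 / 4) * hd
      have h2x : 2 * x ≠ X - a := by
        rcases hx with hx | hx
        · rw [hx]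
          intro h2
          apply hd0
          linear_combination h2
        · have hx2 : x = (X - a - d) / 2 := hx
          rw [hx2]
          intro h2
          apply hd0
          linear_combination -h2
      have hx0 : x ≠ 0 := by
        rintro rfl
        apply hb
        linear_combination hq
      refine ⟨⟨hx0, ?_⟩, haux x hx0 hq⟩
      intro hxb
      apply h2x
      apply mul_left_cancel₀ hx0
      linear_combination hq + hxb
  rw [hset, Set.encard_pair]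
  · simp
  · intro h2
    apply hd0
    linear_combination h2

theorem perC_two (W W' : WeierstrassCurve ℂ) (h : Rel2 W W') : perC W = 2 * perC W' := by
  rw [perC_eq W h.a₁ h.a₃, perC_eq W' h.a₁' h.a₃', h.a₆, h.a₆', h.a₂', h.a₄']
  have hb : W.a₄ ≠ 0 := h.b0
  obtain ⟨a, ha⟩ : ∃ a, a = W.a₂ := ⟨_, rfl⟩
  obtain ⟨b, hb'⟩ : ∃ b, b = W.a₄ := ⟨_, rfl⟩
  rw [← hb'] at hb
  rw [← ha, ← hb']
  obtain ⟨G, hG⟩ : ∃ G : ℂ → ENNReal, G = fun X => ENNReal.ofReal
      (2⁻¹ * ‖X ^ 3 + -2 * a * X ^ 2 + (a ^ 2 - 4 * b) * X + 0‖⁻¹) := ⟨_, rfl⟩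
  obtain ⟨F, hF⟩ : ∃ F : ℂ → ENNReal, F = fun x => ENNReal.ofReal
      (2⁻¹ * ‖x ^ 3 + a * x ^ 2 + b * x + 0‖⁻¹) := ⟨_, rfl⟩
  have hGm : Measurable G := by
    rw [hG]
    fun_prop
  have key : ∫⁻ x : ℂ, F x = 2 * ∫⁻ X : ℂ, G X := by
    have hUo : IsOpen {x : ℂ | x ≠ 0 ∧ x ^ 2 ≠ b} :=
      isOpen_ne.inter (isOpen_ne_fun (continuous_pow 2) continuous_const)
    have hUc : volume ({x : ℂ | x ≠ 0 ∧ x ^ 2 ≠ b}ᶜ) = 0 := by
      refine Set.Finite.measure_zero ?_ _
      refine ((PC2_fin 0 b).union (Set.finite_singleton 0)).subset ?_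
      intro x hx
      by_cases h0 : x = 0
      · exact Or.inr h0
      · left
        show (x - 0) ^ 2 = b
        by_contra h1
        apply hx
        refine ⟨h0, ?_⟩
        rwa [sub_zero] at h1
    have e1 : ∫⁻ x : ℂ, F x = ∫⁻ x in {x : ℂ | x ≠ 0 ∧ x ^ 2 ≠ b}, F x := by
      rw [← lintegral_add_compl F hUo.measurableSet, setLIntegral_measure_zero _ _ hUc, add_zero]
    have e2 := area_C {x : ℂ | x ≠ 0 ∧ x ^ 2 ≠ b} hUo (fun x : ℂ => x + a + b * x⁻¹)
      (fun x => 1 + b * (-(x ^ 2)⁻¹)) (by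
        intro x hx
        exact ((hasStrictDerivAt_id x).add_const a).add ((hasStrictDerivAt_inv hx.1).const_mul b))
      (by
        intro x hx h0
        apply hx.2
        have hx1 : x ≠ 0 := hx.1
        have h1 : (1 + b * (-(x ^ 2)⁻¹)) * x ^ 2 = x ^ 2 - b := by
          field_simp
          ring
        rw [h0, zero_mul] at h1
        linear_combination -h1) G hGm
    have e3 : ∫⁻ x in {x : ℂ | x ≠ 0 ∧ x ^ 2 ≠ b},
        ENNReal.ofReal (‖1 + b * (-(x ^ 2)⁻¹)‖ ^ 2) * G (x + a + b * x⁻¹)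
        = ∫⁻ x in {x : ℂ | x ≠ 0 ∧ x ^ 2 ≠ b}, F x := by
      refine setLIntegral_congr_fun hUo.measurableSet ?_
      intro x hx
      have hx0 : x ≠ 0 := hx.1
      have hd0 : 1 + b * (-(x ^ 2)⁻¹) ≠ 0 := by
        intro h0
        apply hx.2
        field_simp at h0
        linear_combination h0
      have e4 : (x + a + b * x⁻¹) ^ 3 + -2 * a * (x + a + b * x⁻¹) ^ 2 +
          (a ^ 2 - 4 * b) * (x + a + b * x⁻¹) + 0
          = (x ^ 3 + a * x ^ 2 + b * x + 0) * (1 + b * (-(x ^ 2)⁻¹)) ^ 2 := by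
        field_simp
        ring
      show ENNReal.ofReal (‖1 + b * (-(x ^ 2)⁻¹)‖ ^ 2) * G (x + a + b * x⁻¹) = F x
      rw [hG, hF]
      show ENNReal.ofReal (‖1 + b * (-(x ^ 2)⁻¹)‖ ^ 2) * ENNReal.ofReal
        (2⁻¹ * ‖(x + a + b * x⁻¹) ^ 3 + -2 * a * (x + a + b * x⁻¹) ^ 2 +
          (a ^ 2 - 4 * b) * (x + a + b * x⁻¹) + 0‖⁻¹) = ENNReal.ofReal
        (2⁻¹ * ‖x ^ 3 + a * x ^ 2 + b * x + 0‖⁻¹)
      rw [e4, norm_mul, norm_pow, ← ENNReal.ofReal_mul (by positivity)]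
      congr 1
      have hn : ‖1 + b * (-(x ^ 2)⁻¹)‖ ≠ 0 := norm_ne_zero_iff.mpr hd0
      have hn2 := mul_inv_cancel₀ (pow_ne_zero 2 hn)
      rw [mul_inv]
      linear_combination (2⁻¹ * ‖x ^ 3 + a * x ^ 2 + b * x + 0‖⁻¹) * hn2
    have e5 : ∫⁻ y : ℂ, (({x : ℂ | x ≠ 0 ∧ x ^ 2 ≠ b} ∩
        (fun x : ℂ => x + a + b * x⁻¹) ⁻¹' {y}).encard : ENNReal) * G y = ∫⁻ y : ℂ, 2 * G y := by
      refine lintegral_congr_ae ?_
      have h0 : ∀ᵐ y : ℂ, (y - a) ^ 2 ≠ 4 * b := by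
        rw [ae_iff]
        refine Set.Finite.measure_zero ((PC2_fin a (4 * b)).subset ?_) _
        intro y hy
        by_contra h1
        exact hy h1
      filter_upwards [h0] with y hy
      rw [PC2_fib a b hb y hy]
    rw [e1, ← e3, e2, e5, lintegral_const_mul 2 hGm]
  have key2 : (∫⁻ x : ℂ, F x).toReal = 2 * (∫⁻ X : ℂ, G X).toReal := by
    rw [key, ENNReal.toReal_mul]
    simp
  rw [hF, hG] at key2
  exact key2

end Pool.Agent.Lib.MP_1a91b9_nuI
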