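import Pool.Agent.Lib.MP_1a91b9_nuI.Pe.AreaF
import Pool.Agent.Lib.MP_1a91b9_nuI.Pe.FibF

/-!
# The complex period under an isogeny of degree 3
-/

set_option autoImplicit false

namespace Pool.Agent.Lib.MP_1a91b9_nuI

open MeasureTheory WeierstrassCurve Pool.Agent.Lib.MP_1a91b9_nuT.Per

private theorem PC3_fac (b c X : ℂ) : ∃ x₁ x₂ x₃ : ℂ, x₁ + x₂ + x₃ = X ∧
    x₁ * x₂ + x₁ * x₃ + x₂ * x₃ = 2 * b ∧ x₁ * x₂ * x₃ = -4 * c := by
  obtain ⟨x₁, h1⟩ : ∃ x₁ : ℂ, x₁ ^ 3 - X * x₁ ^ 2 + 2 * b * x₁ + 4 * c = 0 := by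
    have hd : (Polynomial.X ^ 3 - Polynomial.C X * Polynomial.X ^ 2 +
        Polynomial.C (2 * b) * Polynomial.X + Polynomial.C (4 * c) : Polynomial ℂ).degree = 3 := by
      compute_degree!
    obtain ⟨x, hx⟩ := IsAlgClosed.exists_root (Polynomial.X ^ 3 - Polynomial.C X *
      Polynomial.X ^ 2 + Polynomial.C (2 * b) * Polynomial.X + Polynomial.C (4 * c) :
      Polynomial ℂ) (by rw [hd]; decide)
    refine ⟨x, ?_⟩
    simpa [Polynomial.IsRoot] using hx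
  obtain ⟨s, hs⟩ := IsAlgClosed.exists_pow_nat_eq
    ((x₁ - X) ^ 2 - 4 * (x₁ ^ 2 - X * x₁ + 2 * b)) (n := 2) (by norm_num)
  refine ⟨x₁, ((X - x₁) + s) / 2, ((X - x₁) - s) / 2, by ring, ?_, ?_⟩
  · linear_combination (-1 / 4) * hs
  · linear_combination (-x₁ / 4) * hs + h1

private theorem PC3_fib (a b c X : ℂ) (hr : 4 * a * c = b ^ 2) (hc : c ≠ 0)
    (hX : X ^ 3 + a * X ^ 2 + -9 * b * X + (-27 * c - 8 * a * b) ≠ 0) :
    ({x : ℂ | x ≠ 0 ∧ x ^ 3 - 2 * b * x - 8 * c ≠ 0} ∩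
      (fun x : ℂ => x + 2 * b / x + 4 * c / x ^ 2) ⁻¹' {X}).encard = 3 := by
  obtain ⟨x₁, x₂, x₃, h1, h2, h3⟩ := PC3_fac b c X
  have hdisc : ((x₁ - x₂) * (x₁ - x₃) * (x₂ - x₃)) ^ 2 =
      16 * c * (X ^ 3 + a * X ^ 2 + -9 * b * X + (-27 * c - 8 * a * b)) := by
    have hb : b = (x₁ * x₂ + x₁ * x₃ + x₂ * x₃) / 2 := by rw [h2]; ring
    have hcc : c = -(x₁ * x₂ * x₃) / 4 := by rw [h3]; ring
    have hq : (x₁ - x₂) * (x₁ - x₃) * (x₂ - x₃) * ((x₁ - x₂) * (x₁ - x₃) * (x₂ - x₃)) =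
        4 * b ^ 2 * X ^ 2 - 32 * b ^ 3 + 16 * c * X ^ 3 - 432 * c ^ 2 - 144 * b * c * X := by
      rw [hb, hcc, ← h1]
      ring
    rw [pow_two, hq]
    linear_combination (-4 * X ^ 2 + 32 * b) * hr
  have hne : (x₁ - x₂) * (x₁ - x₃) * (x₂ - x₃) ≠ 0 := by
    intro h0
    rw [h0] at hdisc
    have h16 : (16 : ℂ) ≠ 0 := by norm_num
    have := mul_ne_zero (mul_ne_zero h16 hc) hX
    exact this (by rw [← hdisc]; ring)
  have h12 : x₁ - x₂ ≠ 0 := left_ne_zero_of_mul (left_ne_zero_of_mul hne)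
  have h13 : x₁ - x₃ ≠ 0 := right_ne_zero_of_mul (left_ne_zero_of_mul hne)
  have h23 : x₂ - x₃ ≠ 0 := right_ne_zero_of_mul hne
  have hprod : x₁ * x₂ * x₃ ≠ 0 := by
    rw [h3]
    exact mul_ne_zero (by norm_num) hc
  have hx1 : x₁ ≠ 0 := left_ne_zero_of_mul (left_ne_zero_of_mul hprod)
  have hx2 : x₂ ≠ 0 := right_ne_zero_of_mul (left_ne_zero_of_mul hprod)
  have hx3 : x₃ ≠ 0 := right_ne_zero_of_mul hprod
  have hphi : ∀ x : ℂ, x ≠ 0 → (x + 2 * b / x + 4 * c / x ^ 2 = X ↔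
      (x - x₁) * (x - x₂) * (x - x₃) = 0) := by
    intro x hx
    have e1 : (x - x₁) * (x - x₂) * (x - x₃) = x ^ 2 * (x + 2 * b / x + 4 * c / x ^ 2 - X) := by
      have e2 : x ^ 2 * (x + 2 * b / x + 4 * c / x ^ 2 - X) =
          x ^ 3 - X * x ^ 2 + 2 * b * x + 4 * c := by
        field_simp
        ring
      rw [e2]
      linear_combination (-x ^ 2) * h1 + x * h2 - h3
    rw [e1]
    constructor
    · intro h
      rw [h]
      ring
    · intro h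
      rcases mul_eq_zero.1 h with h | h
      · exact absurd h (pow_ne_zero 2 hx)
      · exact sub_eq_zero.1 h
  have hU : ∀ x y z : ℂ, x ≠ 0 → x + y + z = X → x * y + x * z + y * z = 2 * b →
      x * y * z = -4 * c → x - y ≠ 0 → x - z ≠ 0 → x ^ 3 - 2 * b * x - 8 * c ≠ 0 := by
    intro x y z hx g1 g2 g3 g12 g13 h0
    have : x * ((x - y) * (x - z)) = 0 := by
      have e : x * ((x - y) * (x - z)) = x ^ 3 - 2 * b * x - 8 * c := by
        rw [← g2]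
        linear_combination 2 * g3
      rw [e, h0]
    exact mul_ne_zero hx (mul_ne_zero g12 g13) this
  rw [Set.encard_eq_three]
  refine ⟨x₁, x₂, x₃, sub_ne_zero.1 h12, sub_ne_zero.1 h13, sub_ne_zero.1 h23, ?_⟩
  ext x
  simp only [Set.mem_inter_iff, Set.mem_ofPred_eq, Set.mem_preimage, Set.mem_singleton_iff,
    Set.mem_insert_iff]
  constructor
  · rintro ⟨⟨hx, -⟩, hX'⟩
    have := (hphi x hx).1 hX'
    rcases mul_eq_zero.1 this with h | h
    · rcases mul_eq_zero.1 h with h | h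
      · exact Or.inl (sub_eq_zero.1 h)
      · exact Or.inr (Or.inl (sub_eq_zero.1 h))
    · exact Or.inr (Or.inr (sub_eq_zero.1 h))
  · rintro (rfl | rfl | rfl)
    · exact ⟨⟨hx1, hU x x₂ x₃ hx1 h1 h2 h3 h12 h13⟩, (hphi x hx1).2 (by ring)⟩
    · refine ⟨⟨hx2, hU x x₁ x₃ hx2 ?_ ?_ ?_ ?_ h23⟩, (hphi x hx2).2 (by ring)⟩
      · rw [← h1]; ring
      · rw [← h2]; ring
      · rw [← h3]; ring
      · intro h0
        exact h12 (by linear_combination -h0)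
    · refine ⟨⟨hx3, hU x x₁ x₂ hx3 ?_ ?_ ?_ ?_ ?_⟩, (hphi x hx3).2 (by ring)⟩
      · rw [← h1]; ring
      · rw [← h2]; ring
      · rw [← h3]; ring
      · intro h0
        exact h13 (by linear_combination -h0)
      · intro h0
        exact h23 (by linear_combination -h0)

private theorem PC3_deriv (b c x : ℂ) (hx : x ≠ 0) :
    HasStrictDerivAt (fun x : ℂ => x + 2 * b / x + 4 * c / x ^ 2)
      (1 - 2 * b / x ^ 2 - 8 * c / x ^ 3) x := by
  have h1 : HasStrictDerivAt (fun x : ℂ => x) 1 x := hasStrictDerivAt_id x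
  have h2 : HasStrictDerivAt (fun x : ℂ => 2 * b / x) ((0 * x - 2 * b * 1) / x ^ 2) x :=
    (hasStrictDerivAt_const x (2 * b)).fun_div h1 hx
  have h3 : HasStrictDerivAt (fun x : ℂ => 4 * c / x ^ 2)
      ((0 * x ^ 2 - 4 * c * ((2 : ℕ) * x ^ (2 - 1) * 1)) / (x ^ 2) ^ 2) x :=
    (hasStrictDerivAt_const x (4 * c)).fun_div (h1.fun_pow 2) (pow_ne_zero 2 hx)
  refine ((h1.fun_add h2).fun_add h3).congr_deriv ?_
  push_cast
  field_simp
  ring

private theorem PC3_ae (P : Polynomial ℂ) (hP : P ≠ 0) (q : ℂ → Prop)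
    (hq : ∀ x : ℂ, P.eval x ≠ 0 → q x) : ∀ᵐ x : ℂ, q x := by
  have hfin : {x : ℂ | ¬ q x}.Finite := by
    refine Set.Finite.subset (P.roots.toFinset.finite_toSet) ?_
    intro x hx
    rw [Finset.mem_coe, Multiset.mem_toFinset, Polynomial.mem_roots hP]
    by_contra h0
    exact hx (hq x h0)
  rw [ae_iff]
  exact hfin.measure_zero _

theorem perC_three (W W' : WeierstrassCurve ℂ) (h : Rel3 W W') : perC W = 3 * perC W' := by
  rw [perC_eq W h.a₁ h.a₃, perC_eq W' h.a₁' h.a₃', h.a₂', h.a₄', h.a₆']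
  have hr := h.rel
  have hc := h.c0
  generalize W.a₂ = a at hr hc ⊢
  generalize W.a₄ = b at hr hc ⊢
  generalize W.a₆ = c at hr hc ⊢
  have key : ∫⁻ x : ℂ, ENNReal.ofReal (2⁻¹ * ‖x ^ 3 + a * x ^ 2 + b * x + c‖⁻¹) =
      3 * ∫⁻ x : ℂ, ENNReal.ofReal
        (2⁻¹ * ‖x ^ 3 + a * x ^ 2 + -9 * b * x + (-27 * c - 8 * a * b)‖⁻¹) := by
    have hUo : IsOpen {x : ℂ | x ≠ 0 ∧ x ^ 3 - 2 * b * x - 8 * c ≠ 0} := by
      apply IsOpen.inter
      · exact isOpen_ne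
      · exact isOpen_ne_fun (by fun_prop) continuous_const
    have hUae : ∀ᵐ x : ℂ, x ∈ {x : ℂ | x ≠ 0 ∧ x ^ 3 - 2 * b * x - 8 * c ≠ 0} := by
      have hd : (Polynomial.X * (Polynomial.X ^ 3 - Polynomial.C (2 * b) * Polynomial.X -
          Polynomial.C (8 * c)) : Polynomial ℂ).degree = 4 := by
        rw [Polynomial.degree_mul, Polynomial.degree_X]
        have : (Polynomial.X ^ 3 - Polynomial.C (2 * b) * Polynomial.X -
          Polynomial.C (8 * c) : Polynomial ℂ).degree = 3 := by compute_degree!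
        rw [this]
        rfl
      refine PC3_ae (Polynomial.X * (Polynomial.X ^ 3 - Polynomial.C (2 * b) * Polynomial.X -
          Polynomial.C (8 * c))) (fun h0 => ?_) _ (fun x hx => ?_)
      · rw [h0, Polynomial.degree_zero] at hd
        exact absurd hd (by decide)
      · rw [Polynomial.eval_mul] at hx
        refine ⟨?_, ?_⟩
        · have := left_ne_zero_of_mul hx
          simpa using this
        · have := right_ne_zero_of_mul hx
          simpa using this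
    have hXae : ∀ᵐ X : ℂ, X ^ 3 + a * X ^ 2 + -9 * b * X + (-27 * c - 8 * a * b) ≠ 0 := by
      have hd : (Polynomial.X ^ 3 + Polynomial.C a * Polynomial.X ^ 2 +
          Polynomial.C (-9 * b) * Polynomial.X + Polynomial.C (-27 * c - 8 * a * b) :
          Polynomial ℂ).degree = 3 := by compute_degree!
      refine PC3_ae (Polynomial.X ^ 3 + Polynomial.C a * Polynomial.X ^ 2 +
          Polynomial.C (-9 * b) * Polynomial.X + Polynomial.C (-27 * c - 8 * a * b))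
          (fun h0 => ?_) _ (fun x hx => ?_)
      · rw [h0, Polynomial.degree_zero] at hd
        exact absurd hd (by decide)
      · simpa only [Polynomial.eval_add, Polynomial.eval_mul, Polynomial.eval_pow,
          Polynomial.eval_X, Polynomial.eval_C] using hx
    have hphi0 : ∀ x : ℂ, x ∈ {x : ℂ | x ≠ 0 ∧ x ^ 3 - 2 * b * x - 8 * c ≠ 0} →
        1 - 2 * b / x ^ 2 - 8 * c / x ^ 3 ≠ 0 := by
      rintro x ⟨hx, hx'⟩ h0
      apply hx'
      have e : x ^ 3 - 2 * b * x - 8 * c = x ^ 3 * (1 - 2 * b / x ^ 2 - 8 * c / x ^ 3) := by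
        field_simp
      rw [e, h0, mul_zero]
    have hgm : Measurable (fun X : ℂ => ENNReal.ofReal
        (2⁻¹ * ‖X ^ 3 + a * X ^ 2 + -9 * b * X + (-27 * c - 8 * a * b)‖⁻¹)) := by
      apply ENNReal.measurable_ofReal.comp
      apply Measurable.const_mul
      apply Measurable.inv
      exact (Continuous.norm (by fun_prop)).measurable
    have harea := area_C {x : ℂ | x ≠ 0 ∧ x ^ 3 - 2 * b * x - 8 * c ≠ 0} hUo
      (fun x => x + 2 * b / x + 4 * c / x ^ 2) (fun x => 1 - 2 * b / x ^ 2 - 8 * c / x ^ 3)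
      (fun x hx => PC3_deriv b c x hx.1) hphi0 _ hgm
    have hL : ∫⁻ x in {x : ℂ | x ≠ 0 ∧ x ^ 3 - 2 * b * x - 8 * c ≠ 0},
        ENNReal.ofReal (‖1 - 2 * b / x ^ 2 - 8 * c / x ^ 3‖ ^ 2) * ENNReal.ofReal
          (2⁻¹ * ‖(x + 2 * b / x + 4 * c / x ^ 2) ^ 3 + a * (x + 2 * b / x + 4 * c / x ^ 2) ^ 2 +
            -9 * b * (x + 2 * b / x + 4 * c / x ^ 2) + (-27 * c - 8 * a * b)‖⁻¹) =
        ∫⁻ x : ℂ, ENNReal.ofReal (2⁻¹ * ‖x ^ 3 + a * x ^ 2 + b * x + c‖⁻¹) := by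
      refine Eq.trans (setLIntegral_congr_fun hUo.measurableSet (fun x hx => ?_))
        (congrArg (fun μ => ∫⁻ x : ℂ, ENNReal.ofReal
          (2⁻¹ * ‖x ^ 3 + a * x ^ 2 + b * x + c‖⁻¹) ∂μ)
          (Measure.restrict_eq_self_of_ae_mem hUae))
      obtain ⟨y, hy⟩ := IsAlgClosed.exists_pow_nat_eq (x ^ 3 + a * x ^ 2 + b * x + c)
        (n := 2) (by norm_num)
      have e1 := phi3_eqn a b c x y hx.1 hr hy
      have e2 : ‖1 - 2 * b / x ^ 2 - 8 * c / x ^ 3‖ ^ 2 ≠ 0 :=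
        pow_ne_zero 2 (norm_ne_zero_iff.2 (hphi0 x hx))
      show ENNReal.ofReal (‖1 - 2 * b / x ^ 2 - 8 * c / x ^ 3‖ ^ 2) * ENNReal.ofReal
          (2⁻¹ * ‖(x + 2 * b / x + 4 * c / x ^ 2) ^ 3 + a * (x + 2 * b / x + 4 * c / x ^ 2) ^ 2 +
            -9 * b * (x + 2 * b / x + 4 * c / x ^ 2) + (-27 * c - 8 * a * b)‖⁻¹) =
        ENNReal.ofReal (2⁻¹ * ‖x ^ 3 + a * x ^ 2 + b * x + c‖⁻¹)
      rw [← e1, mul_pow, hy, norm_mul, norm_pow, ← ENNReal.ofReal_mul (by positivity), mul_inv]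
      congr 1
      have e3 : ‖1 - 2 * b / x ^ 2 - 8 * c / x ^ 3‖ ^ 2 *
          (2⁻¹ * (‖x ^ 3 + a * x ^ 2 + b * x + c‖⁻¹ *
            (‖1 - 2 * b / x ^ 2 - 8 * c / x ^ 3‖ ^ 2)⁻¹)) =
          2⁻¹ * ‖x ^ 3 + a * x ^ 2 + b * x + c‖⁻¹ *
          (‖1 - 2 * b / x ^ 2 - 8 * c / x ^ 3‖ ^ 2 *
            (‖1 - 2 * b / x ^ 2 - 8 * c / x ^ 3‖ ^ 2)⁻¹) := by ring
      rw [e3, mul_inv_cancel₀ e2, mul_one]
    rw [← hL, harea, ← lintegral_const_mul _ hgm]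
    apply lintegral_congr_ae
    filter_upwards [hXae] with X hX
    rw [PC3_fib a b c X hr hc hX]
    rfl
  rw [key, ENNReal.toReal_mul]
  norm_num

end Pool.Agent.Lib.MP_1a91b9_nuI
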