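import Pool.Agent.Lib.MP_1a91b9_nuI.Pe.AreaF
import Pool.Agent.Lib.MP_1a91b9_nuI.Pe.FibF

/-!
# The real period under an isogeny of degree 2
-/

set_option autoImplicit false

namespace Pool.Agent.Lib.MP_1a91b9_nuI

open MeasureTheory WeierstrassCurve Pool.Agent.Lib.MP_1a91b9_nuT.Per

private theorem PR2_count (a b X : ℝ) (hb : b ≠ 0) (hd : 0 < (X - a) ^ 2 - 4 * b) :
    ({x : ℝ | x ≠ 0 ∧ x ^ 2 ≠ b} ∩ (fun x : ℝ => x + a + b * x⁻¹) ⁻¹' {X}).encard = 2 := by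
  obtain ⟨d, hd0, hd2⟩ : ∃ d : ℝ, 0 < d ∧ d ^ 2 = (X - a) ^ 2 - 4 * b :=
    ⟨Real.sqrt ((X - a) ^ 2 - 4 * b), Real.sqrt_pos.2 hd, Real.sq_sqrt hd.le⟩
  have hset : {x : ℝ | x ≠ 0 ∧ x ^ 2 ≠ b} ∩ (fun x : ℝ => x + a + b * x⁻¹) ⁻¹' {X} =
      {(X - a + d) / 2, (X - a - d) / 2} := by
    ext x
    simp only [Set.mem_inter_iff, Set.mem_ofPred_eq, Set.mem_preimage, Set.mem_singleton_iff,
      Set.mem_insert_iff]
    constructor
    · rintro ⟨⟨hx, _⟩, h2⟩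
      have h3 : x ^ 2 + (a - X) * x + b = 0 := by
        have h4 : x * (x + a + b * x⁻¹) = x * X := by rw [h2]
        have h5 : x * (x + a + b * x⁻¹) = x ^ 2 + a * x + b := by
          field_simp
        linarith [h4, h5]
      have h6 : (x - (X - a + d) / 2) * (x - (X - a - d) / 2) = 0 := by
        linear_combination h3 - hd2 / 4
      rcases mul_eq_zero.1 h6 with h7 | h7
      · exact Or.inl (sub_eq_zero.1 h7)
      · exact Or.inr (sub_eq_zero.1 h7)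
    · intro h
      have h3 : x ^ 2 + (a - X) * x + b = 0 := by
        rcases h with h | h
        · rw [h]
          linear_combination hd2 / 4
        · rw [h]
          linear_combination hd2 / 4
      have hx : x ≠ 0 := by
        rintro rfl
        apply hb
        linear_combination h3
      refine ⟨⟨hx, fun h4 => ?_⟩, ?_⟩
      · have h5 : x * (2 * x - (X - a)) = 0 := by linear_combination h3 + h4
        have h6 : 2 * x - (X - a) = 0 := (mul_eq_zero.1 h5).resolve_left hx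
        rcases h with h | h
        · rw [h] at h6
          linarith
        · rw [h] at h6
          linarith
      · have h5 : x * (x + a + b * x⁻¹) = x ^ 2 + a * x + b := by
          field_simp
        refine mul_left_cancel₀ hx ?_
        rw [h5]
        linear_combination h3
  rw [hset]
  refine Set.encard_pair fun h => ?_
  linarith

private theorem PR2_fin (b : ℝ) : ({x : ℝ | x ≠ 0 ∧ x ^ 2 ≠ b}ᶜ).Finite := by
  refine Set.Finite.subset (Set.toFinite ({0, Real.sqrt b, -Real.sqrt b} : Set ℝ)) ?_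
  intro x hx
  simp only [Set.mem_compl_iff, Set.mem_ofPred_eq, not_and, not_not] at hx
  simp only [Set.mem_insert_iff, Set.mem_singleton_iff]
  by_cases h0 : x = 0
  · exact Or.inl h0
  · right
    have h1 := hx h0
    rw [← h1, Real.sqrt_sq_eq_abs]
    rcases abs_choice x with h2 | h2
    · left
      rw [h2]
    · right
      rw [h2, neg_neg]

private theorem PR2_open (b : ℝ) : IsOpen {x : ℝ | x ≠ 0 ∧ x ^ 2 ≠ b} := by
  have h1 : IsOpen {x : ℝ | x ≠ 0} := isOpen_ne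
  have h2 : IsOpen {x : ℝ | x ^ 2 ≠ b} := isOpen_ne_fun (continuous_pow 2) continuous_const
  exact h1.inter h2

private theorem PR2_main (a b : ℝ) (hb : b ≠ 0)
    (hs : ∀ X : ℝ, 0 < X ^ 3 - 2 * a * X ^ 2 + (a ^ 2 - 4 * b) * X → 0 < (X - a) ^ 2 - 4 * b) :
    (∫⁻ x : ℝ, ENNReal.ofReal (Real.sqrt (x ^ 3 + a * x ^ 2 + b * x))⁻¹) =
      2 * ∫⁻ X : ℝ, ENNReal.ofReal
        (Real.sqrt (X ^ 3 - 2 * a * X ^ 2 + (a ^ 2 - 4 * b) * X))⁻¹ := by
  have hU := PR2_open b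
  have hm : Measurable fun X : ℝ => ENNReal.ofReal
        (Real.sqrt (X ^ 3 - 2 * a * X ^ 2 + (a ^ 2 - 4 * b) * X))⁻¹ := by
    refine ENNReal.measurable_ofReal.comp (Measurable.inv ?_)
    refine (Continuous.measurable ?_)
    refine Real.continuous_sqrt.comp ?_
    fun_prop
  rw [← lintegral_add_compl _ hU.measurableSet,
    setLIntegral_measure_zero _ _ ((PR2_fin b).measure_zero volume), add_zero]
  have h1 := area_R {x : ℝ | x ≠ 0 ∧ x ^ 2 ≠ b} hU (fun x : ℝ => x + a + b * x⁻¹)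
    (fun x : ℝ => 1 + b * -(x ^ 2)⁻¹)
    (fun x hx => ((hasStrictDerivAt_id x).add_const a).add
      ((hasStrictDerivAt_inv hx.1).const_mul b))
    (fun x hx h0 => hx.2 (by
      have h2 : x ≠ 0 := hx.1
      have h3 : x ^ 2 * (1 + b * -(x ^ 2)⁻¹) = 0 := by
        rw [show (1 + b * -(x ^ 2)⁻¹ : ℝ) = 0 from h0, mul_zero]
      have h4 : x ^ 2 * (1 + b * -(x ^ 2)⁻¹) = x ^ 2 - b := by
        field_simp
        ring
      rw [h4] at h3
      linarith)) _ hm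
  have h2 : ∫⁻ x in {x : ℝ | x ≠ 0 ∧ x ^ 2 ≠ b},
      ENNReal.ofReal (Real.sqrt (x ^ 3 + a * x ^ 2 + b * x))⁻¹ =
      ∫⁻ x in {x : ℝ | x ≠ 0 ∧ x ^ 2 ≠ b}, ENNReal.ofReal |1 + b * -(x ^ 2)⁻¹| *
        ENNReal.ofReal (Real.sqrt ((x + a + b * x⁻¹) ^ 3 - 2 * a * (x + a + b * x⁻¹) ^ 2 +
          (a ^ 2 - 4 * b) * (x + a + b * x⁻¹)))⁻¹ := by
    refine setLIntegral_congr_fun hU.measurableSet fun x hx => ?_
    have hx0 : x ≠ 0 := hx.1
    have hx2 : x ^ 2 ≠ b := hx.2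
    have e1 : (x + a + b * x⁻¹) ^ 3 - 2 * a * (x + a + b * x⁻¹) ^ 2 +
          (a ^ 2 - 4 * b) * (x + a + b * x⁻¹) =
        (x ^ 3 + a * x ^ 2 + b * x) * (1 + b * -(x ^ 2)⁻¹) ^ 2 := by
      field_simp
      ring
    have hne : |1 + b * -(x ^ 2)⁻¹| ≠ 0 := by
      rw [abs_ne_zero]
      intro h0
      apply hx2
      have h3 : x ^ 2 * (1 + b * -(x ^ 2)⁻¹) = 0 := by
        rw [h0, mul_zero]
      have h4 : x ^ 2 * (1 + b * -(x ^ 2)⁻¹) = x ^ 2 - b := by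
        field_simp
        ring
      rw [h4] at h3
      linarith
    rw [e1, Real.sqrt_mul' _ (sq_nonneg _), Real.sqrt_sq_eq_abs,
      ← ENNReal.ofReal_mul (abs_nonneg _)]
    congr 1
    rw [mul_inv, mul_left_comm, mul_inv_cancel₀ hne, mul_one]
  rw [h2, h1, ← lintegral_const_mul _ hm]
  refine lintegral_congr fun X => ?_
  by_cases hX : 0 < X ^ 3 - 2 * a * X ^ 2 + (a ^ 2 - 4 * b) * X
  · rw [PR2_count a b X hb (hs X hX)]
    rfl
  · rw [Real.sqrt_eq_zero'.2 (not_lt.1 hX), inv_zero, ENNReal.ofReal_zero, mul_zero, mul_zero]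

theorem perR_two (W W' : WeierstrassCurve ℝ) (h : Rel2 W W')
    (hs : ∀ X : ℝ, 0 < X ^ 3 + W'.a₂ * X ^ 2 + W'.a₄ * X → 0 < (X - W.a₂) ^ 2 - 4 * W.a₄) :
    perR W = 2 * perR W' := by
  rw [perR_eq W h.a₁ h.a₃, perR_eq W' h.a₁' h.a₃', h.a₆, h.a₆', h.a₂', h.a₄']
  rw [h.a₂', h.a₄'] at hs
  have h1 := PR2_main W.a₂ W.a₄ h.b0 (fun X hX => hs X (by
    have e : X ^ 3 + -2 * W.a₂ * X ^ 2 + (W.a₂ ^ 2 - 4 * W.a₄) * X =
      X ^ 3 - 2 * W.a₂ * X ^ 2 + (W.a₂ ^ 2 - 4 * W.a₄) * X := by ring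
    rw [e]
    exact hX))
  have e2 : ∀ X : ℝ, X ^ 3 + -2 * W.a₂ * X ^ 2 + (W.a₂ ^ 2 - 4 * W.a₄) * X + 0 =
      X ^ 3 - 2 * W.a₂ * X ^ 2 + (W.a₂ ^ 2 - 4 * W.a₄) * X := fun X => by ring
  simp only [e2, add_zero]
  rw [h1, ENNReal.toReal_mul]
  rfl

end Pool.Agent.Lib.MP_1a91b9_nuI
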