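import Pool.Agent.Lib.MP_1a91b9_nuI.Pe.AreaF
import Pool.Agent.Lib.MP_1a91b9_nuI.Pe.FibF

/-!
# The real period under an isogeny of degree 3
-/

set_option autoImplicit false

namespace Pool.Agent.Lib.MP_1a91b9_nuI

open MeasureTheory WeierstrassCurve Pool.Agent.Lib.MP_1a91b9_nuT.Per

section
variable {a b c : ℝ}

private theorem PR3_id (hr : 4 * a * c = b ^ 2) {x : ℝ} (hx : x ≠ 0) :
    (x + 2 * b / x + 4 * c / x ^ 2) ^ 3 + a * (x + 2 * b / x + 4 * c / x ^ 2) ^ 2 +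
      -9 * b * (x + 2 * b / x + 4 * c / x ^ 2) + (-27 * c - 8 * a * b) =
    (x ^ 3 + a * x ^ 2 + b * x + c) * (1 - 2 * b / x ^ 2 - 8 * c / x ^ 3) ^ 2 := by
  have h1 : (x ^ 3 + a * x ^ 2 + b * x + c) * (1 - 2 * b / x ^ 2 - 8 * c / x ^ 3) ^ 2 =
      (x ^ 3 + a * x ^ 2 + b * x + c) * (x ^ 3 - 2 * b * x - 8 * c) ^ 2 / x ^ 6 := by
    field_simp
  rw [h1]
  field_simp
  linear_combination (-(-6 * x ^ 5 + 4 * b * x ^ 3 + 12 * c * x ^ 2)) * hr

private theorem PR3_deriv (b c : ℝ) {x : ℝ} (hx : x ≠ 0) :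
    HasStrictDerivAt (fun x : ℝ => x + 2 * b / x + 4 * c / x ^ 2)
      (1 - 2 * b / x ^ 2 - 8 * c / x ^ 3) x := by
  have h1 := (hasStrictDerivAt_id x).add
    ((hasStrictDerivAt_const x (2 * b)).div (hasStrictDerivAt_id x) hx)
  have h2 := h1.add ((hasStrictDerivAt_const x (4 * c)).div
    (hasStrictDerivAt_pow 2 x) (pow_ne_zero 2 hx))
  refine h2.congr_deriv ?_
  simp only [id]
  field_simp
  ring

private theorem PR3_open (b c : ℝ) :
    IsOpen {x : ℝ | x ≠ 0 ∧ x ^ 3 - 2 * b * x - 8 * c ≠ 0} :=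
  isOpen_ne.inter (isOpen_ne_fun (by fun_prop) continuous_const)

private theorem PR3_null (b c : ℝ) :
    {x : ℝ | x ≠ 0 ∧ x ^ 3 - 2 * b * x - 8 * c ≠ 0} =ᵐ[volume] Set.univ := by
  rw [ae_eq_univ]
  have h1 : ({x : ℝ | x ≠ 0 ∧ x ^ 3 - 2 * b * x - 8 * c ≠ 0}ᶜ).Finite := by
    have h2 : ({x : ℝ | x ^ 3 - 2 * b * x - 8 * c = 0}).Finite := by
      have h3 : (Polynomial.X ^ 3 - Polynomial.C (2 * b) * Polynomial.X -
          Polynomial.C (8 * c) : Polynomial ℝ) ≠ 0 := by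
        intro h
        have h4 := congrArg (fun q => Polynomial.coeff q 3) h
        simp at h4
      refine (Polynomial.rootSet_finite (Polynomial.X ^ 3 - Polynomial.C (2 * b) * Polynomial.X -
          Polynomial.C (8 * c) : Polynomial ℝ) ℝ).subset fun x hx => ?_
      rw [Polynomial.mem_rootSet]
      refine ⟨h3, ?_⟩
      simp only [map_sub, map_mul, map_pow, Polynomial.aeval_X, Polynomial.aeval_C,
        Algebra.algebraMap_self, RingHom.id_apply]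
      exact hx
    refine ((Set.finite_singleton (0 : ℝ)).union h2).subset fun x hx => ?_
    by_cases h0 : x = 0
    · exact Or.inl h0
    · right
      by_contra h5
      exact hx ⟨h0, h5⟩
  exact h1.measure_zero _

/-- the discriminant of the cubic -/
private theorem PR3_disc (hr : 4 * a * c = b ^ 2) {X x : ℝ}
    (hp : x ^ 3 - X * x ^ 2 + 2 * b * x + 4 * c = 0) :
    (3 * x ^ 2 - 2 * X * x + 2 * b) ^ 2 * ((x - X) ^ 2 - 4 * (x ^ 2 - X * x + 2 * b)) =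
      16 * c * (X ^ 3 + a * X ^ 2 + -9 * b * X + (-27 * c - 8 * a * b)) := by
  have h1 : 16 * c * (X ^ 3 + a * X ^ 2 + -9 * b * X + (-27 * c - 8 * a * b)) =
      16 * c * X ^ 3 + 4 * b ^ 2 * X ^ 2 - 144 * b * c * X - 432 * c ^ 2 - 32 * b ^ 3 := by
    linear_combination (4 * X ^ 2 - 32 * b) * hr
  have h2 : c = -(x ^ 3 - X * x ^ 2 + 2 * b * x) / 4 := by linarith
  rw [h1, h2]
  ring

/-- the fibre is the set of zeros of the cubic -/
private theorem PR3_fib (hr : 4 * a * c = b ^ 2) (hc : c ≠ 0) {X : ℝ}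
    (hX : 0 < X ^ 3 + a * X ^ 2 + -9 * b * X + (-27 * c - 8 * a * b)) :
    {x : ℝ | x ≠ 0 ∧ x ^ 3 - 2 * b * x - 8 * c ≠ 0} ∩
      (fun x : ℝ => x + 2 * b / x + 4 * c / x ^ 2) ⁻¹' {X} =
      {x : ℝ | x ^ 3 - X * x ^ 2 + 2 * b * x + 4 * c = 0} := by
  ext x
  simp only [Set.mem_inter_iff, Set.mem_ofPred_eq, Set.mem_preimage, Set.mem_singleton_iff]
  constructor
  · rintro ⟨⟨h0, -⟩, h1⟩
    rw [← h1]
    field_simp
    ring
  · intro hp
    have h0 : x ≠ 0 := by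
      rintro rfl
      apply hc
      linarith
    refine ⟨⟨h0, fun h1 => ?_⟩, ?_⟩
    · have h2 : x * (3 * x ^ 2 - 2 * X * x + 2 * b) = 0 := by
        linear_combination 2 * hp + h1
      have h3 := (mul_eq_zero.1 h2).resolve_left h0
      have h4 := PR3_disc hr hp
      rw [h3] at h4
      have h5 : 16 * c * (X ^ 3 + a * X ^ 2 + -9 * b * X + (-27 * c - 8 * a * b)) ≠ 0 :=
        mul_ne_zero (mul_ne_zero (by norm_num) hc) hX.ne'
      apply h5
      rw [← h4]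
      ring
    · have h6 : 2 * b * x + 4 * c = X * x ^ 2 - x ^ 3 := by linarith
      field_simp
      linear_combination hp

private theorem PR3_root (b c X : ℝ) : ∃ x : ℝ, x ^ 3 - X * x ^ 2 + 2 * b * x + 4 * c = 0 := by
  obtain ⟨M, hM⟩ : ∃ M, M = 1 + |X| + |2 * b| + |4 * c| := ⟨_, rfl⟩
  have hX := abs_nonneg X
  have hb := abs_nonneg (2 * b)
  have hc := abs_nonneg (4 * c)
  have hM1 : 1 ≤ M := by rw [hM]; linarith
  have hX1 := le_abs_self X
  have hX2 := neg_abs_le X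
  have hb1 := le_abs_self (2 * b)
  have hb2 := neg_abs_le (2 * b)
  have hc1 := le_abs_self (4 * c)
  have hc2 := neg_abs_le (4 * c)
  have hM2 : M ≤ M ^ 2 := by nlinarith
  have hM3 : (1 : ℝ) ≤ M ^ 2 := by linarith
  have e3 : M ^ 3 = M ^ 2 + |X| * M ^ 2 + |2 * b| * M ^ 2 + |4 * c| * M ^ 2 := by
    have h : M ^ 3 = M * M ^ 2 := by ring
    rw [h]
    nth_rewrite 1 [hM]
    ring
  have f1 : |2 * b| * M ≤ |2 * b| * M ^ 2 := mul_le_mul_of_nonneg_left hM2 hb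
  have f2 : |4 * c| ≤ |4 * c| * M ^ 2 := le_mul_of_one_le_right hc hM3
  have f3 : X * M ^ 2 ≤ |X| * M ^ 2 := mul_le_mul_of_nonneg_right hX1 (by positivity)
  have f3' : -|X| * M ^ 2 ≤ X * M ^ 2 := mul_le_mul_of_nonneg_right hX2 (by positivity)
  have f4 : 2 * b * M ≤ |2 * b| * M := mul_le_mul_of_nonneg_right hb1 (by linarith)
  have f4' : -|2 * b| * M ≤ 2 * b * M := mul_le_mul_of_nonneg_right hb2 (by linarith)
  have hcont : ContinuousOn (fun x : ℝ => x ^ 3 - X * x ^ 2 + 2 * b * x + 4 * c)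
      (Set.Icc (-M) M) := by fun_prop
  have hiv := intermediate_value_Icc (by linarith : -M ≤ M) hcont
  have hmem : (0 : ℝ) ∈ Set.Icc ((fun x : ℝ => x ^ 3 - X * x ^ 2 + 2 * b * x + 4 * c) (-M))
      ((fun x : ℝ => x ^ 3 - X * x ^ 2 + 2 * b * x + 4 * c) M) := by
    constructor
    · simp only
      have e : (-M) ^ 3 - X * (-M) ^ 2 + 2 * b * -M + 4 * c =
          -(M ^ 3) - X * M ^ 2 - 2 * b * M + 4 * c := by ring
      rw [e]
      linarith
    · simp only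
      linarith
  obtain ⟨x, -, hx⟩ := hiv hmem
  exact ⟨x, hx⟩

/-- the number of real zeros of the cubic -/
private theorem PR3_card (hr : 4 * a * c = b ^ 2) (hc : c ≠ 0) {X : ℝ}
    (hX : 0 < X ^ 3 + a * X ^ 2 + -9 * b * X + (-27 * c - 8 * a * b)) :
    (0 < c → ({x : ℝ | x ^ 3 - X * x ^ 2 + 2 * b * x + 4 * c = 0}).encard = 3) ∧
      (c < 0 → ({x : ℝ | x ^ 3 - X * x ^ 2 + 2 * b * x + 4 * c = 0}).encard = 1) := by
  obtain ⟨x₁, h1⟩ := PR3_root b c X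
  have hd := PR3_disc hr h1
  obtain ⟨D, hD⟩ : ∃ D, D = (x₁ - X) ^ 2 - 4 * (x₁ ^ 2 - X * x₁ + 2 * b) := ⟨_, rfl⟩
  rw [← hD] at hd
  have hfac : ∀ x : ℝ, x ^ 3 - X * x ^ 2 + 2 * b * x + 4 * c =
      (x - x₁) * (x ^ 2 + (x₁ - X) * x + (x₁ ^ 2 - X * x₁ + 2 * b)) := by
    intro x
    linear_combination h1
  have hq : ∀ x : ℝ, 4 * (x ^ 2 + (x₁ - X) * x + (x₁ ^ 2 - X * x₁ + 2 * b)) =
      (2 * x + x₁ - X) ^ 2 - D := by
    intro x
    rw [hD]
    ring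
  have hne : 3 * x₁ ^ 2 - 2 * X * x₁ + 2 * b ≠ 0 := by
    intro h
    rw [h] at hd
    have h5 : 16 * c * (X ^ 3 + a * X ^ 2 + -9 * b * X + (-27 * c - 8 * a * b)) ≠ 0 :=
      mul_ne_zero (mul_ne_zero (by norm_num) hc) hX.ne'
    apply h5
    rw [← hd]
    ring
  have hsq : 0 < (3 * x₁ ^ 2 - 2 * X * x₁ + 2 * b) ^ 2 := by positivity
  constructor
  · intro hc0
    have hDp : 0 < D := by
      have h2 : 0 < (3 * x₁ ^ 2 - 2 * X * x₁ + 2 * b) ^ 2 * D := by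
        rw [hd]
        positivity
      exact (pos_iff_pos_of_mul_pos h2).1 hsq
    obtain ⟨d, hdd⟩ : ∃ d, d = Real.sqrt D := ⟨_, rfl⟩
    have hd0 : 0 < d := by
      rw [hdd]
      exact Real.sqrt_pos.2 hDp
    have hd2 : d ^ 2 = D := by
      rw [hdd]
      exact Real.sq_sqrt hDp.le
    have hset : {x : ℝ | x ^ 3 - X * x ^ 2 + 2 * b * x + 4 * c = 0} =
        {x₁, (X - x₁ + d) / 2, (X - x₁ - d) / 2} := by
      ext x
      simp only [Set.mem_ofPred_eq, Set.mem_insert_iff, Set.mem_singleton_iff]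
      rw [hfac x, mul_eq_zero, sub_eq_zero]
      refine or_congr Iff.rfl ?_
      have h3 : x ^ 2 + (x₁ - X) * x + (x₁ ^ 2 - X * x₁ + 2 * b) =
          (x - (X - x₁ + d) / 2) * (x - (X - x₁ - d) / 2) := by
        have h4 := hq x
        rw [← hd2] at h4
        linear_combination (1 / 4) * h4
      rw [h3, mul_eq_zero, sub_eq_zero, sub_eq_zero]
    have hval : ∀ x : ℝ, x ^ 2 + (x₁ - X) * x + (x₁ ^ 2 - X * x₁ + 2 * b) = 0 → x₁ ≠ x := by
      rintro x hx rfl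
      apply hne
      linear_combination hx
    have hv1 : x₁ ≠ (X - x₁ + d) / 2 := by
      refine hval _ ?_
      have h4 := hq ((X - x₁ + d) / 2)
      rw [← hd2] at h4
      linear_combination (1 / 4) * h4
    have hv2 : x₁ ≠ (X - x₁ - d) / 2 := by
      refine hval _ ?_
      have h4 := hq ((X - x₁ - d) / 2)
      rw [← hd2] at h4
      linear_combination (1 / 4) * h4
    have hv3 : (X - x₁ + d) / 2 ≠ (X - x₁ - d) / 2 := by
      intro h
      linarith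
    rw [hset, Set.encard_insert_of_notMem, Set.encard_pair hv3]
    · rfl
    · rintro (h | h)
      · exact hv1 h
      · exact hv2 h
  · intro hc0
    have hDn : D < 0 := by
      by_contra h
      rw [not_lt] at h
      have h2 : 16 * c * (X ^ 3 + a * X ^ 2 + -9 * b * X + (-27 * c - 8 * a * b)) < 0 :=
        mul_neg_of_neg_of_pos (by linarith) hX
      rw [← hd] at h2
      have h3 := mul_nonneg hsq.le h
      linarith
    have hset : {x : ℝ | x ^ 3 - X * x ^ 2 + 2 * b * x + 4 * c = 0} = {x₁} := by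
      ext x
      simp only [Set.mem_ofPred_eq, Set.mem_singleton_iff]
      rw [hfac x, mul_eq_zero, sub_eq_zero]
      refine or_iff_left fun h => ?_
      have h4 := hq x
      rw [h] at h4
      have h5 := sq_nonneg (2 * x + x₁ - X)
      linarith
    rw [hset, Set.encard_singleton]

private theorem PR3_main (hr : 4 * a * c = b ^ 2) (hc : c ≠ 0) {N : ℕ∞}
    (hN : ∀ X : ℝ, 0 < X ^ 3 + a * X ^ 2 + -9 * b * X + (-27 * c - 8 * a * b) →
      ({x : ℝ | x ^ 3 - X * x ^ 2 + 2 * b * x + 4 * c = 0}).encard = N) :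
    ∫⁻ x : ℝ, ENNReal.ofReal (Real.sqrt (x ^ 3 + a * x ^ 2 + b * x + c))⁻¹ =
      (N : ENNReal) * ∫⁻ X : ℝ, ENNReal.ofReal
        (Real.sqrt (X ^ 3 + a * X ^ 2 + -9 * b * X + (-27 * c - 8 * a * b)))⁻¹ := by
  have hmeas : Measurable fun X : ℝ => ENNReal.ofReal
      (Real.sqrt (X ^ 3 + a * X ^ 2 + -9 * b * X + (-27 * c - 8 * a * b)))⁻¹ := by
    have h1 : Measurable fun X : ℝ =>
        Real.sqrt (X ^ 3 + a * X ^ 2 + -9 * b * X + (-27 * c - 8 * a * b)) := by fun_prop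
    exact h1.inv.ennreal_ofReal
  have hderne : ∀ x ∈ {x : ℝ | x ≠ 0 ∧ x ^ 3 - 2 * b * x - 8 * c ≠ 0},
      1 - 2 * b / x ^ 2 - 8 * c / x ^ 3 ≠ 0 := by
    rintro x ⟨h0, h1⟩ h2
    apply h1
    have h3 : x ^ 3 - 2 * b * x - 8 * c = x ^ 3 * (1 - 2 * b / x ^ 2 - 8 * c / x ^ 3) := by
      field_simp
    rw [h3, h2, mul_zero]
  have hA := area_R {x : ℝ | x ≠ 0 ∧ x ^ 3 - 2 * b * x - 8 * c ≠ 0} (PR3_open b c)
    (fun x => x + 2 * b / x + 4 * c / x ^ 2) (fun x => 1 - 2 * b / x ^ 2 - 8 * c / x ^ 3)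
    (fun x hx => PR3_deriv b c hx.1) hderne
    (fun X : ℝ => ENNReal.ofReal
      (Real.sqrt (X ^ 3 + a * X ^ 2 + -9 * b * X + (-27 * c - 8 * a * b)))⁻¹) hmeas
  have hL : ∫⁻ x in {x : ℝ | x ≠ 0 ∧ x ^ 3 - 2 * b * x - 8 * c ≠ 0},
      ENNReal.ofReal |1 - 2 * b / x ^ 2 - 8 * c / x ^ 3| *
        ENNReal.ofReal (Real.sqrt ((x + 2 * b / x + 4 * c / x ^ 2) ^ 3 +
          a * (x + 2 * b / x + 4 * c / x ^ 2) ^ 2 +
          -9 * b * (x + 2 * b / x + 4 * c / x ^ 2) + (-27 * c - 8 * a * b)))⁻¹ =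
      ∫⁻ x in {x : ℝ | x ≠ 0 ∧ x ^ 3 - 2 * b * x - 8 * c ≠ 0},
        ENNReal.ofReal (Real.sqrt (x ^ 3 + a * x ^ 2 + b * x + c))⁻¹ := by
    refine setLIntegral_congr_fun (PR3_open b c).measurableSet fun x hx => ?_
    have hd := hderne x hx
    rw [PR3_id hr hx.1, Real.sqrt_mul' _ (sq_nonneg _), Real.sqrt_sq_eq_abs,
      ← ENNReal.ofReal_mul (abs_nonneg _)]
    congr 1
    rw [mul_inv, mul_comm (Real.sqrt _)⁻¹, ← mul_assoc, mul_inv_cancel₀ (abs_ne_zero.2 hd),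
      one_mul]
  have hR : ∀ X : ℝ, (({x : ℝ | x ≠ 0 ∧ x ^ 3 - 2 * b * x - 8 * c ≠ 0} ∩
      (fun x : ℝ => x + 2 * b / x + 4 * c / x ^ 2) ⁻¹' {X}).encard : ENNReal) *
      ENNReal.ofReal (Real.sqrt (X ^ 3 + a * X ^ 2 + -9 * b * X + (-27 * c - 8 * a * b)))⁻¹ =
      (N : ENNReal) * ENNReal.ofReal
        (Real.sqrt (X ^ 3 + a * X ^ 2 + -9 * b * X + (-27 * c - 8 * a * b)))⁻¹ := by
    intro X
    rcases lt_or_ge 0 (X ^ 3 + a * X ^ 2 + -9 * b * X + (-27 * c - 8 * a * b)) with h | h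
    · rw [PR3_fib hr hc h, hN X h]
    · rw [Real.sqrt_eq_zero_of_nonpos h, inv_zero, ENNReal.ofReal_zero, mul_zero, mul_zero]
  simp_rw [hR] at hA
  rw [lintegral_const_mul _ hmeas, hL, setLIntegral_congr (PR3_null b c), setLIntegral_univ] at hA
  exact hA

end

theorem perR_three (W W' : WeierstrassCurve ℝ) (h : Rel3 W W') :
    (0 < W.a₆ → perR W = 3 * perR W') ∧ (W.a₆ < 0 → perR W = perR W') := by
  rw [perR_eq W h.a₁ h.a₃, perR_eq W' h.a₁' h.a₃', h.a₂', h.a₄', h.a₆']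
  constructor
  · intro hc
    have h1 := PR3_main (N := 3) h.rel h.c0 fun X hX => (PR3_card h.rel h.c0 hX).1 hc
    rw [h1, ENNReal.toReal_mul]
    simp
  · intro hc
    have h1 := PR3_main (N := 1) h.rel h.c0 fun X hX => (PR3_card h.rel h.c0 hX).2 hc
    rw [h1, ENNReal.toReal_mul]
    simp

end Pool.Agent.Lib.MP_1a91b9_nuI
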