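import Pool.Agent.Lib.MP_1a91b9_nuI.Pe.SupF
import Pool.Agent.Lib.MP_1a91b9_nuT.CT.Pd1

/-!
# The period is invariant; the norm factors of curves with almost equal discriminants
-/

set_option autoImplicit false

namespace Pool.Agent.Lib.MP_1a91b9_nuI

/-- `x` is a product of powers of `2` and `3` -/
def R6 (x : ℝ) : Prop := ∃ a b : ℤ, x = (2 : ℝ) ^ a * 3 ^ b

theorem R6.mul {x y : ℝ} (hx : R6 x) (hy : R6 y) : R6 (x * y) := by
  obtain ⟨a, b, rfl⟩ := hx
  obtain ⟨c, d, rfl⟩ := hy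
  refine ⟨a + c, b + d, ?_⟩
  rw [zpow_add₀ two_ne_zero, zpow_add₀ three_ne_zero]
  ring

theorem R6.inv {x : ℝ} (hx : R6 x) : R6 x⁻¹ := by
  obtain ⟨a, b, rfl⟩ := hx
  refine ⟨-a, -b, ?_⟩
  rw [zpow_neg, zpow_neg, mul_inv]

theorem R6.one : R6 1 := ⟨0, 0, by simp⟩

theorem R6.pos {x : ℝ} (hx : R6 x) : 0 < x := by
  obtain ⟨a, b, rfl⟩ := hx
  positivity

variable [Pool.Agent.Lib.MP_1a91b9_nuT.CD]

open NumberField IsDedekindDomain WeierstrassCurve Pool.Agent.Lib.MP_1a91b9_nuT.CT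
open Pool.Agent.Lib.MP_1a91b9_nuT.S9 (normFactor minChange minModel period)

variable {N : Type*} [Field N] [NumberField N]

private theorem PerV_supp_val (x : N) (hx : x ≠ 0) :
    (Function.mulSupport fun v : HeightOneSpectrum (𝓞 N) => (Ideal.absNorm v.asIdeal : ℝ) ^
      (WithZero.log (Valued.v (algebraMap N (v.adicCompletion N) x)))).Finite := by
  refine (supp_val x hx).subset fun v hv => ?_
  intro h
  apply hv
  show (Ideal.absNorm v.asIdeal : ℝ) ^
      (WithZero.log (Valued.v (algebraMap N (v.adicCompletion N) x))) = 1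
  rw [h, WithZero.log_one, zpow_zero]

theorem period_vc (W : WeierstrassCurve N) (hΔ : W.Δ ≠ 0) (D : VariableChange N) :
    period (D • W) = period W := by
  have h1 : ∏ᶠ v : HeightOneSpectrum (𝓞 N), normFactor (D • W) v =
      (∏ᶠ v : HeightOneSpectrum (𝓞 N), normFactor W v) * |(Algebra.norm ℚ (D.u : N) : ℝ)|⁻¹ := by
    rw [← prod_val (D.u : N) D.u.ne_zero,
      ← finprod_mul_distrib (supp_norm W hΔ) (PerV_supp_val (D.u : N) D.u.ne_zero)]
    exact finprod_congr fun v => norm_vc v W hΔ D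
  have h2 : |(Algebra.norm ℚ (D.u : N) : ℝ)| ≠ 0 := by
    rw [abs_ne_zero, Rat.cast_ne_zero]
    exact (Algebra.norm_ne_zero_iff).2 D.u.ne_zero
  rw [period, period, prod_vc, h1]
  field_simp

omit [Pool.Agent.Lib.MP_1a91b9_nuT.CD] in
private theorem PerV_absNorm (v : HeightOneSpectrum (𝓞 N)) {p : ℕ} (hp : p.Prime)
    (hpv : (p : 𝓞 N) ∈ v.asIdeal) : ∃ k : ℕ, Ideal.absNorm v.asIdeal = p ^ k := by
  have h1 : Ideal.absNorm v.asIdeal ∣ Ideal.absNorm (Ideal.span {(p : 𝓞 N)}) :=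
    Ideal.absNorm_dvd_absNorm_of_le ((Ideal.span_singleton_le_iff_mem _).2 hpv)
  rw [Ideal.absNorm_span_natCast] at h1
  obtain ⟨k, -, hk⟩ := (Nat.dvd_prime_pow hp).1 h1
  exact ⟨k, hk⟩

omit [Pool.Agent.Lib.MP_1a91b9_nuT.CD] in
private theorem PerV_val_nat (v : HeightOneSpectrum (𝓞 N)) (p : ℕ) :
    Valued.v (p : v.adicCompletion N) = v.valuation N ((p : 𝓞 N) : N) := by
  rw [← Pool.Agent.Lib.MP_1a91b9_nt.valued_algebraMap v ((p : 𝓞 N) : N)]
  congr 1
  simp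

omit [Pool.Agent.Lib.MP_1a91b9_nuT.CD] in
private theorem PerV_le (v : HeightOneSpectrum (𝓞 N)) (p : ℕ) :
    Valued.v (p : v.adicCompletion N) ≤ 1 := by
  rw [PerV_val_nat]
  exact v.valuation_le_one _

omit [Pool.Agent.Lib.MP_1a91b9_nuT.CD] in
private theorem PerV_mem (v : HeightOneSpectrum (𝓞 N)) (p : ℕ)
    (h : Valued.v (p : v.adicCompletion N) ≠ 1) : (p : 𝓞 N) ∈ v.asIdeal := by
  have h1 := lt_of_le_of_ne (PerV_le v p) h
  rw [PerV_val_nat] at h1
  exact (v.valuation_lt_one_iff_mem (K := N) _).1 h1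

omit [Pool.Agent.Lib.MP_1a91b9_nuT.CD] in
private theorem PerV_six (v : HeightOneSpectrum (𝓞 N)) :
    Valued.v (6 : v.adicCompletion N) =
      Valued.v ((2 : ℕ) : v.adicCompletion N) * Valued.v ((3 : ℕ) : v.adicCompletion N) := by
  rw [← map_mul]
  congr 1
  norm_num

private theorem PerV_R6_pow (v : HeightOneSpectrum (𝓞 N))
    (h : Valued.v (6 : v.adicCompletion N) ≠ 1) (i : ℤ) :
    R6 ((Ideal.absNorm v.asIdeal : ℝ) ^ i) := by
  by_cases h2 : Valued.v ((2 : ℕ) : v.adicCompletion N) = 1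
  · have h3 : Valued.v ((3 : ℕ) : v.adicCompletion N) ≠ 1 := by
      intro h3
      apply h
      rw [PerV_six, h2, h3, one_mul]
    obtain ⟨k, hk⟩ := PerV_absNorm v Nat.prime_three (PerV_mem v 3 h3)
    refine ⟨0, k * i, ?_⟩
    rw [hk, zpow_zero, one_mul, zpow_mul, zpow_natCast]
    push_cast
    rfl
  · obtain ⟨k, hk⟩ := PerV_absNorm v Nat.prime_two (PerV_mem v 2 h2)
    refine ⟨k * i, 0, ?_⟩
    rw [hk, zpow_zero, mul_one, zpow_mul, zpow_natCast]
    push_cast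
    rfl

omit [Pool.Agent.Lib.MP_1a91b9_nuT.CD] in
private theorem PerV_absNorm_pos (v : HeightOneSpectrum (𝓞 N)) : (0 : ℝ) < Ideal.absNorm v.asIdeal := by
  have : Ideal.absNorm v.asIdeal ≠ 0 := by
    rw [Ne, Ideal.absNorm_eq_zero_iff]
    exact v.ne_bot
  exact_mod_cast Nat.pos_of_ne_zero this

omit [Pool.Agent.Lib.MP_1a91b9_nuT.CD] in
private theorem PerV_pos (W : WeierstrassCurve N) (v : HeightOneSpectrum (𝓞 N)) :
    0 < normFactor W v := by
  unfold Pool.Agent.Lib.MP_1a91b9_nuT.S9.normFactor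
  exact zpow_pos (PerV_absNorm_pos v) _

private theorem PerV_ratio (W W' : WeierstrassCurve N) (hΔ : W.Δ ≠ 0)
    (hΔ' : W'.Δ ≠ 0) (j j' : ℤ) (hj : HasJ W j) (hj' : HasJ W' j') (a b : ℤ)
    (hr : W.Δ = (2 : N) ^ a * 3 ^ b * W'.Δ ∨ W.Δ = -((2 : N) ^ a * 3 ^ b * W'.Δ))
    (v : HeightOneSpectrum (𝓞 N)) : R6 (normFactor W v / normFactor W' v) := by
  by_cases h6 : Valued.v (6 : v.adicCompletion N) = 1
  · have h2 : Valued.v ((2 : ℕ) : v.adicCompletion N) = 1 := by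
      by_contra h
      have h2' := lt_of_le_of_ne (PerV_le v 2) h
      rw [PerV_six] at h6
      have := mul_lt_one_of_lt_of_le h2' (PerV_le v 3)
      rw [h6] at this
      exact lt_irrefl _ this
    have h3 : Valued.v ((3 : ℕ) : v.adicCompletion N) = 1 := by
      rw [PerV_six, h2, one_mul] at h6
      exact h6
    push_cast at h2 h3
    have h4 : Valued.v (algebraMap N (v.adicCompletion N) ((2 : N) ^ a * 3 ^ b * W'.Δ)) =
        Valued.v (algebraMap N (v.adicCompletion N) W'.Δ) := by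
      rw [map_mul, map_mul, map_mul, map_mul, map_zpow₀, map_zpow₀, map_zpow₀, map_zpow₀,
        map_ofNat (algebraMap N (v.adicCompletion N)) 2,
        map_ofNat (algebraMap N (v.adicCompletion N)) 3, h2, h3, one_zpow, one_zpow, one_mul, one_mul]
    have h5 : Valued.v (algebraMap N (v.adicCompletion N) W.Δ) =
        Valued.v (algebraMap N (v.adicCompletion N) W'.Δ) := by
      rcases hr with hr | hr
      · rw [hr, h4]
      · rw [hr, map_neg, Valuation.map_neg, h4]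
    rw [norm_eq_of_disc v h6 W W' hΔ hΔ' j j' hj hj' h5, div_self (PerV_pos W' v).ne']
    exact R6.one
  · unfold Pool.Agent.Lib.MP_1a91b9_nuT.S9.normFactor
    rw [div_eq_mul_inv]
    exact (PerV_R6_pow v h6 _).mul (PerV_R6_pow v h6 _).inv

theorem prod_ratio (W W' : WeierstrassCurve N) (hΔ : W.Δ ≠ 0)
    (hΔ' : W'.Δ ≠ 0) (j j' : ℤ) (hj : HasJ W j) (hj' : HasJ W' j') (a b : ℤ)
    (hr : W.Δ = (2 : N) ^ a * 3 ^ b * W'.Δ ∨ W.Δ = -((2 : N) ^ a * 3 ^ b * W'.Δ)) :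
    ∃ x : ℝ, R6 x ∧ ∏ᶠ v : HeightOneSpectrum (𝓞 N), normFactor W v =
      x * ∏ᶠ v : HeightOneSpectrum (𝓞 N), normFactor W' v := by
  refine ⟨∏ᶠ v : HeightOneSpectrum (𝓞 N), (normFactor W v / normFactor W' v), ?_, ?_⟩
  · exact finprod_induction R6 R6.one (fun _ _ hx hy => hx.mul hy)
      (PerV_ratio W W' hΔ hΔ' j j' hj hj' a b hr)
  · have h0 : 0 < ∏ᶠ v : HeightOneSpectrum (𝓞 N), normFactor W' v :=
      finprod_induction (fun x : ℝ => 0 < x) one_pos (fun _ _ hx hy => mul_pos hx hy)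
        (PerV_pos W')
    rw [finprod_div_distrib (supp_norm W hΔ) (supp_norm W' hΔ'), div_mul_cancel₀ _ h0.ne']

end Pool.Agent.Lib.MP_1a91b9_nuI
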