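import Mathlib

set_option autoImplicit false

namespace Pool.Agent.Lib.MP_1a91b9_nuI

open MeasureTheory

private theorem areaF_cover {E : Type*} [NormedAddCommGroup E] [NormedSpace ℝ E]
    [FiniteDimensional ℝ E] (U : Set E)
    (hU : IsOpen U) (hne : U.Nonempty) (f : E → E) (f' : E → E →L[ℝ] E)
    (hf : ∀ x ∈ U, HasStrictFDerivAt f (f' x) x) (hinv : ∀ x ∈ U, (f' x).det ≠ 0) :
    ∃ V : ℕ → Set E, (∀ n, IsOpen (V n)) ∧ (∀ n, Set.InjOn f (V n)) ∧ (⋃ n, V n) = U := by
  have : CompleteSpace E := FiniteDimensional.complete ℝ E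
  have : ProperSpace E := FiniteDimensional.proper ℝ E
  have h1 : ∀ x : U, ∃ W : Set E, IsOpen W ∧ (x : E) ∈ W ∧ W ⊆ U ∧ Set.InjOn f W := by
    rintro ⟨x, hx⟩
    have h2 : HasStrictFDerivAt f
        (((f' x).toContinuousLinearEquivOfDetNeZero (hinv x hx) : E ≃L[ℝ] E) : E →L[ℝ] E) x := by
      rw [ContinuousLinearMap.coe_toContinuousLinearEquivOfDetNeZero]
      exact hf x hx
    refine ⟨(h2.toOpenPartialHomeomorph f).source ∩ U,
      (h2.toOpenPartialHomeomorph f).open_source.inter hU,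
      ⟨h2.mem_toOpenPartialHomeomorph_source, hx⟩, Set.inter_subset_right, ?_⟩
    have h3 := (h2.toOpenPartialHomeomorph f).injOn
    rw [HasStrictFDerivAt.toOpenPartialHomeomorph_coe] at h3
    exact h3.mono Set.inter_subset_left
  choose W hWo hWx hWU hWi using h1
  obtain ⟨T, hT, hTU⟩ := TopologicalSpace.isOpen_iUnion_countable W hWo
  have hWall : (⋃ x, W x) = U := by
    apply Set.Subset.antisymm
    · exact Set.iUnion_subset hWU
    · intro x hx
      exact Set.mem_iUnion.mpr ⟨⟨x, hx⟩, hWx _⟩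
  rw [hWall] at hTU
  have hTne : T.Nonempty := by
    obtain ⟨x, hx⟩ := hne
    rw [← hTU] at hx
    simp only [Set.mem_iUnion] at hx
    obtain ⟨i, hi, _⟩ := hx
    exact ⟨i, hi⟩
  obtain ⟨g, hg⟩ := hT.exists_eq_range hTne
  refine ⟨fun n => W (g n), fun n => hWo _, fun n => hWi _, ?_⟩
  rw [← hTU, hg]
  simp only [Set.biUnion_range]

private theorem areaF_count {E : Type*} [MeasurableSpace E] [MeasurableSingletonClass E]
    (A : ℕ → Set E) (hd : Pairwise (Function.onFun Disjoint A))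
    (f : E → E) (hi : ∀ n, Set.InjOn f (A n)) (y : E) :
    (((⋃ n, A n) ∩ f ⁻¹' {y}).encard : ENNReal) =
      ∑' n, (f '' A n).indicator (fun _ => (1 : ENNReal)) y := by
  have hsub : ∀ n, (A n ∩ f ⁻¹' {y}).Subsingleton := by
    intro n a ha b hb
    exact hi n ha.1 hb.1 (ha.2.trans hb.2.symm)
  have hmeas : ∀ n, MeasurableSet (A n ∩ f ⁻¹' {y}) := fun n => (hsub n).measurableSet
  have hun : (⋃ n, A n) ∩ f ⁻¹' {y} = ⋃ n, (A n ∩ f ⁻¹' {y}) := Set.iUnion_inter _ _
  have hd' : Pairwise (Function.onFun Disjoint (fun n => A n ∩ f ⁻¹' {y})) := by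
    intro m n hmn
    exact (hd hmn).mono Set.inter_subset_left Set.inter_subset_left
  rw [← Measure.count_apply (by rw [hun]; exact MeasurableSet.iUnion hmeas), hun,
    measure_iUnion hd' hmeas]
  refine tsum_congr (fun n => ?_)
  by_cases hy : y ∈ f '' A n
  · obtain ⟨x, hx, rfl⟩ := hy
    have : A n ∩ f ⁻¹' {f x} = {x} := by
      apply (hsub n).eq_singleton_of_mem
      exact ⟨hx, rfl⟩
    have hmem : f x ∈ f '' A n := ⟨x, hx, rfl⟩
    rw [this, Measure.count_singleton, Set.indicator_of_mem hmem]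
  · have : A n ∩ f ⁻¹' {y} = ∅ := by
      rw [Set.eq_empty_iff_forall_notMem]
      rintro x ⟨hx, hxy⟩
      exact hy ⟨x, hx, hxy⟩
    rw [this, measure_empty, Set.indicator_of_notMem hy]

theorem area_formula {E : Type*} [NormedAddCommGroup E] [NormedSpace ℝ E] [FiniteDimensional ℝ E]
    [MeasurableSpace E] [BorelSpace E] (μ : Measure E) [μ.IsAddHaarMeasure] (U : Set E)
    (hU : IsOpen U) (f : E → E) (f' : E → E →L[ℝ] E)
    (hf : ∀ x ∈ U, HasStrictFDerivAt f (f' x) x) (hinv : ∀ x ∈ U, (f' x).det ≠ 0)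
    (h : E → ENNReal) (hh : Measurable h) :
    ∫⁻ x in U, ENNReal.ofReal |(f' x).det| * h (f x) ∂μ =
      ∫⁻ y, ((U ∩ f ⁻¹' {y}).encard : ENNReal) * h y ∂μ := by
  rcases U.eq_empty_or_nonempty with rfl | hne
  · simp
  obtain ⟨V, hVo, hVi, hVU⟩ := areaF_cover U hU hne f f' hf hinv
  have hAm : ∀ n, MeasurableSet (disjointed V n) :=
    MeasurableSet.disjointed (fun n => (hVo n).measurableSet)
  have hAd : Pairwise (Function.onFun Disjoint (disjointed V)) := disjoint_disjointed V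
  have hAU : (⋃ n, disjointed V n) = U := by rw [iUnion_disjointed, hVU]
  have hAi : ∀ n, Set.InjOn f (disjointed V n) := fun n => (hVi n).mono (disjointed_subset V n)
  have hAsub : ∀ n, disjointed V n ⊆ U := fun n => by
    rw [← hAU]
    exact Set.subset_iUnion _ n
  have hfd : ∀ n, ∀ x ∈ disjointed V n, HasFDerivWithinAt f (f' x) (disjointed V n) x :=
    fun n x hx => (hf x (hAsub n hx)).hasFDerivAt.hasFDerivWithinAt
  have him : ∀ n, MeasurableSet (f '' disjointed V n) := fun n =>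
    measurable_image_of_fderivWithin (hAm n) (hfd n) (hAi n)
  have hR : ∀ y, ((U ∩ f ⁻¹' {y}).encard : ENNReal) * h y =
      ∑' n, (f '' disjointed V n).indicator h y := by
    intro y
    have h1 := areaF_count (disjointed V) hAd f hAi y
    rw [hAU] at h1
    rw [h1, ← ENNReal.tsum_mul_right]
    refine tsum_congr (fun n => ?_)
    by_cases hy : y ∈ f '' disjointed V n
    · rw [Set.indicator_of_mem hy, Set.indicator_of_mem hy, one_mul]
    · rw [Set.indicator_of_notMem hy, Set.indicator_of_notMem hy, zero_mul]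
  calc ∫⁻ x in U, ENNReal.ofReal |(f' x).det| * h (f x) ∂μ
      = ∫⁻ x in ⋃ n, disjointed V n, ENNReal.ofReal |(f' x).det| * h (f x) ∂μ := by rw [hAU]
    _ = ∑' n, ∫⁻ x in disjointed V n, ENNReal.ofReal |(f' x).det| * h (f x) ∂μ :=
        lintegral_iUnion hAm hAd _
    _ = ∑' n, ∫⁻ y in f '' disjointed V n, h y ∂μ :=
        tsum_congr (fun n =>
          (lintegral_image_eq_lintegral_abs_det_fderiv_mul μ (hAm n) (hfd n) (hAi n) h).symm)
    _ = ∑' n, ∫⁻ y, (f '' disjointed V n).indicator h y ∂μ :=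
        tsum_congr (fun n => (lintegral_indicator (him n) h).symm)
    _ = ∫⁻ y, ∑' n, (f '' disjointed V n).indicator h y ∂μ :=
        (lintegral_tsum (fun n => (hh.indicator (him n)).aemeasurable)).symm
    _ = ∫⁻ y, ((U ∩ f ⁻¹' {y}).encard : ENNReal) * h y ∂μ :=
        lintegral_congr (fun y => (hR y).symm)

private theorem areaF_detC (c : ℂ) :
    (ContinuousLinearMap.restrictScalars ℝ (ContinuousLinearMap.toSpanSingleton ℂ c)).det =
      ‖c‖ ^ 2 := by
  have h1 : LinearMap.det ((Algebra.lmul ℝ ℂ) c) = Complex.normSq c := by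
    rw [← Algebra.norm_apply, Algebra.norm_complex_apply]
  rw [← Complex.normSq_eq_norm_sq, ← h1]
  show LinearMap.det _ = LinearMap.det _
  refine congrArg _ ?_
  ext z <;> simp [mul_comm]

/-- the complex case -/
theorem area_C (U : Set ℂ) (hU : IsOpen U) (f f' : ℂ → ℂ)
    (hf : ∀ x ∈ U, HasStrictDerivAt f (f' x) x) (hinv : ∀ x ∈ U, f' x ≠ 0)
    (h : ℂ → ENNReal) (hh : Measurable h) :
    ∫⁻ x in U, ENNReal.ofReal (‖f' x‖ ^ 2) * h (f x) =
      ∫⁻ y, ((U ∩ f ⁻¹' {y}).encard : ENNReal) * h y := by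
  have key := area_formula (volume : Measure ℂ) U hU f
    (fun x => ContinuousLinearMap.restrictScalars ℝ (ContinuousLinearMap.toSpanSingleton ℂ (f' x)))
    (fun x hx => (hf x hx).hasStrictFDerivAt.restrictScalars ℝ)
    (fun x hx => by
      rw [areaF_detC]
      exact pow_ne_zero _ (norm_ne_zero_iff.mpr (hinv x hx))) h hh
  rw [← key]
  refine lintegral_congr (fun x => ?_)
  rw [areaF_detC, abs_of_nonneg (by positivity)]

/-- the real case -/
theorem area_R (U : Set ℝ) (hU : IsOpen U) (f f' : ℝ → ℝ)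
    (hf : ∀ x ∈ U, HasStrictDerivAt f (f' x) x) (hinv : ∀ x ∈ U, f' x ≠ 0)
    (h : ℝ → ENNReal) (hh : Measurable h) :
    ∫⁻ x in U, ENNReal.ofReal |f' x| * h (f x) =
      ∫⁻ y, ((U ∩ f ⁻¹' {y}).encard : ENNReal) * h y := by
  have key := area_formula (volume : Measure ℝ) U hU f
    (fun x => ContinuousLinearMap.toSpanSingleton ℝ (f' x))
    (fun x hx => (hf x hx).hasStrictFDerivAt)
    (fun x hx => by
      rw [ContinuousLinearMap.det_toSpanSingleton]
      exact hinv x hx) h hh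
  rw [← key]
  refine lintegral_congr (fun x => ?_)
  rw [ContinuousLinearMap.det_toSpanSingleton]

end Pool.Agent.Lib.MP_1a91b9_nuI
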