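import Pool.Agent.Lib.MP_1a91b9_nuT.CT.La
import Pool.Agent.Lib.MP_1a91b9_nuI.Defs

/-!
# The discriminant of a minimal model at a place prime to 6, integral `j`
-/

set_option autoImplicit false

namespace Pool.Agent.Lib.MP_1a91b9_nuI

variable [Pool.Agent.Lib.MP_1a91b9_nuT.CD]

open NumberField IsDedekindDomain WeierstrassCurve Pool.Agent.Lib.MP_1a91b9_nuT.CT

variable {N : Type*} [Field N] [NumberField N]

omit [Pool.Agent.Lib.MP_1a91b9_nuT.CD] in
private theorem MinD_int (v : HeightOneSpectrum (𝓞 N)) (n : ℤ) :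
    Valued.v (n : v.adicCompletion N) ≤ 1 := by
  have h := ((n : ℤ) : v.adicCompletionIntegers N).2
  exact h

omit [Pool.Agent.Lib.MP_1a91b9_nuT.CD] in
private theorem MinD_unif (v : HeightOneSpectrum (𝓞 N)) :
    ∃ π : v.adicCompletion N, Valued.v π = WithZero.exp (-1 : ℤ) := by
  obtain ⟨p, hp⟩ := v.valuation_exists_uniformizer N
  exact ⟨_, (HeightOneSpectrum.valuedAdicCompletion_eq_valuation' v p).trans hp⟩

omit [Pool.Agent.Lib.MP_1a91b9_nuT.CD] [NumberField N] in
/-- the short form -/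
private theorem MinD_short {F : Type*} [Field F] (h2 : (2 : F) ≠ 0) (h3 : (3 : F) ≠ 0)
    (M : WeierstrassCurve F) (u : Fˣ) :
    ((⟨u, -M.b₂ / 12, -M.a₁ / 2, (M.a₁ * M.b₂ - 12 * M.a₃) / 24⟩ : VariableChange F) • M) =
      ⟨0, 0, 0, (u⁻¹ : Fˣ) ^ 4 * (-M.c₄ / 48), (u⁻¹ : Fˣ) ^ 6 * (-M.c₆ / 864)⟩ := by
  have h12 : (12 : F) ≠ 0 := by
    have : (12 : F) = 2 ^ 2 * 3 := by norm_num
    rw [this]
    exact mul_ne_zero (pow_ne_zero 2 h2) h3
  have h24 : (24 : F) ≠ 0 := by
    have : (24 : F) = 2 ^ 3 * 3 := by norm_num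
    rw [this]
    exact mul_ne_zero (pow_ne_zero 3 h2) h3
  have h48 : (48 : F) ≠ 0 := by
    have : (48 : F) = 2 ^ 4 * 3 := by norm_num
    rw [this]
    exact mul_ne_zero (pow_ne_zero 4 h2) h3
  have h864 : (864 : F) ≠ 0 := by
    have : (864 : F) = 2 ^ 5 * 3 ^ 3 := by norm_num
    rw [this]
    exact mul_ne_zero (pow_ne_zero 5 h2) (pow_ne_zero 3 h3)
  ext
  · rw [variableChange_a₁]
    field_simp
    ring
  · rw [variableChange_a₂, WeierstrassCurve.b₂]
    field_simp
    ring
  · rw [variableChange_a₃, WeierstrassCurve.b₂]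
    field_simp
    ring
  · rw [variableChange_a₄, WeierstrassCurve.c₄, WeierstrassCurve.b₂, WeierstrassCurve.b₄]
    field_simp
    ring
  · rw [variableChange_a₆, WeierstrassCurve.c₆, WeierstrassCurve.b₂, WeierstrassCurve.b₄,
      WeierstrassCurve.b₆]
    field_simp
    ring

theorem min_gt (v : HeightOneSpectrum (𝓞 N)) (h6 : Valued.v (6 : v.adicCompletion N) = 1)
    (M : WeierstrassCurve (v.adicCompletion N))
    (hm : IsMinimal (v.adicCompletionIntegers N) M) (hΔ : M.Δ ≠ 0) (j : ℤ) (hj : HasJ M j) :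
    -12 < WithZero.log (Valued.v M.Δ) := by
  by_contra hcon
  rw [not_lt, WithZero.log_le_iff_le_exp ((Valuation.ne_zero_iff _).2 hΔ)] at hcon
  obtain ⟨p, hp⟩ := MinD_unif v
  have hp0 : p ≠ 0 := by
    rw [← Valuation.ne_zero_iff Valued.v, hp]
    exact WithZero.exp_ne_zero
  have h2le : Valued.v (2 : v.adicCompletion N) ≤ 1 := by
    have := MinD_int v 2
    exact_mod_cast this
  have h3le : Valued.v (3 : v.adicCompletion N) ≤ 1 := by
    have := MinD_int v 3
    exact_mod_cast this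
  have h23 : Valued.v (2 : v.adicCompletion N) * Valued.v (3 : v.adicCompletion N) = 1 := by
    rw [← map_mul, ← h6]
    congr 1
    norm_num
  have h2v : Valued.v (2 : v.adicCompletion N) = 1 := by
    refine le_antisymm h2le ?_
    rw [← h23]
    exact mul_le_of_le_one_right' h3le
  have h3v : Valued.v (3 : v.adicCompletion N) = 1 := by
    rw [h2v, one_mul] at h23
    exact h23
  have h2 : (2 : v.adicCompletion N) ≠ 0 := by
    rw [← Valuation.ne_zero_iff Valued.v, h2v]
    exact one_ne_zero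
  have h3 : (3 : v.adicCompletion N) ≠ 0 := by
    rw [← Valuation.ne_zero_iff Valued.v, h3v]
    exact one_ne_zero
  have h48 : Valued.v (48 : v.adicCompletion N) = 1 := by
    have : (48 : v.adicCompletion N) = 2 ^ 4 * 3 := by norm_num
    rw [this, map_mul, map_pow, h2v, h3v, one_pow, one_mul]
  have h864 : Valued.v (864 : v.adicCompletion N) = 1 := by
    have : (864 : v.adicCompletion N) = 2 ^ 5 * 3 ^ 3 := by norm_num
    rw [this, map_mul, map_pow, map_pow, h2v, h3v, one_pow, one_pow, one_mul]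
  have h1728 : Valued.v (1728 : v.adicCompletion N) = 1 := by
    have : (1728 : v.adicCompletion N) = 2 ^ 6 * 3 ^ 3 := by norm_num
    rw [this, map_mul, map_pow, map_pow, h2v, h3v, one_pow, one_pow, one_mul]
  have hc4 : Valued.v M.c₄ ^ 3 ≤ WithZero.exp (-12 : ℤ) := by
    rw [← map_pow, hj, map_mul]
    exact (mul_le_of_le_one_left' (MinD_int v j)).trans hcon
  have hc6 : Valued.v M.c₆ ^ 2 ≤ WithZero.exp (-12 : ℤ) := by
    have h := M.c_relation
    have h' : M.c₆ ^ 2 = M.c₄ ^ 3 - 1728 * M.Δ := by linear_combination h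
    rw [← map_pow, h']
    refine Valuation.map_sub_le _ ?_ ?_
    · rw [map_pow]
      exact hc4
    · rw [map_mul, h1728, one_mul]
      exact hcon
  have hc4' : Valued.v M.c₄ ≤ WithZero.exp (-4 : ℤ) := by
    rw [← pow_le_pow_iff_left₀ zero_le zero_le (n := 3) (by norm_num), ← WithZero.exp_nsmul]
    exact hc4
  have hc6' : Valued.v M.c₆ ≤ WithZero.exp (-6 : ℤ) := by
    rw [← pow_le_pow_iff_left₀ zero_le zero_le (n := 2) (by norm_num), ← WithZero.exp_nsmul]
    exact hc6
  set u : (v.adicCompletion N)ˣ := Units.mk0 p hp0 with hu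
  have hui : Valued.v ((u⁻¹ : (v.adicCompletion N)ˣ) : v.adicCompletion N) = WithZero.exp (1 : ℤ) := by
    rw [hu, Units.val_inv_eq_inv_val, Units.val_mk0, map_inv₀, hp, ← WithZero.exp_neg, neg_neg]
  set D : VariableChange (v.adicCompletion N) :=
    ⟨u, -M.b₂ / 12, -M.a₁ / 2, (M.a₁ * M.b₂ - 12 * M.a₃) / 24⟩ with hD
  have hS := MinD_short h2 h3 M u
  rw [← hD] at hS
  have ha4 : Valued.v (((u⁻¹ : (v.adicCompletion N)ˣ) : v.adicCompletion N) ^ 4 * (-M.c₄ / 48)) ≤
      1 := by
    rw [map_mul, map_pow, hui, map_div₀, Valuation.map_neg, h48, div_one, ← WithZero.exp_nsmul]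
    refine (mul_le_mul_right hc4' _).trans ?_
    rw [← WithZero.exp_add, ← WithZero.exp_zero, WithZero.exp_le_exp]
    norm_num
  have ha6 : Valued.v (((u⁻¹ : (v.adicCompletion N)ˣ) : v.adicCompletion N) ^ 6 * (-M.c₆ / 864)) ≤
      1 := by
    rw [map_mul, map_pow, hui, map_div₀, Valuation.map_neg, h864, div_one, ← WithZero.exp_nsmul]
    refine (mul_le_mul_right hc6' _).trans ?_
    rw [← WithZero.exp_add, ← WithZero.exp_zero, WithZero.exp_le_exp]
    norm_num
  have hI : D • M = (⟨0, 0, 0, ⟨_, ha4⟩, ⟨_, ha6⟩⟩ :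
      WeierstrassCurve (v.adicCompletionIntegers N)).baseChange (v.adicCompletion N) := by
    rw [hS]
    refine WeierstrassCurve.ext ?_ ?_ ?_ ?_ ?_
    · exact (map_zero (algebraMap (v.adicCompletionIntegers N) (v.adicCompletion N))).symm
    · exact (map_zero (algebraMap (v.adicCompletionIntegers N) (v.adicCompletion N))).symm
    · exact (map_zero (algebraMap (v.adicCompletionIntegers N) (v.adicCompletion N))).symm
    · rfl
    · rfl
  have hinv : D⁻¹ • (D • M) = M := by rw [inv_smul_smul]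
  have hle := min_le (D • M) _ hI D⁻¹ (by rw [hinv]; exact hm)
  rw [hinv, variableChange_Δ, map_mul, map_pow] at hle
  have hD' : Valued.v ((D.u⁻¹ : (v.adicCompletion N)ˣ) : v.adicCompletion N) =
    WithZero.exp (1 : ℤ) := hui
  rw [hD', ← WithZero.exp_nsmul] at hle
  have hpos : 0 < Valued.v M.Δ := zero_lt_iff.2 ((Valuation.ne_zero_iff _).2 hΔ)
  have h5 : WithZero.exp (12 • (1 : ℤ)) ≤ 1 := by
    by_contra h
    rw [not_le] at h
    have h7 : 1 * Valued.v M.Δ < WithZero.exp (12 • (1 : ℤ)) * Valued.v M.Δ :=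
      mul_lt_mul_of_pos_right h hpos
    rw [one_mul] at h7
    exact absurd hle (not_le.2 h7)
  rw [← WithZero.exp_zero, WithZero.exp_le_exp] at h5
  norm_num at h5

end Pool.Agent.Lib.MP_1a91b9_nuI
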