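import Pool.Agent.Lib.MP_1a91b9_nuI.Pe.MinD
import Pool.Agent.Lib.MP_1a91b9_nuT.S9.Defs

/-!
# Equal discriminants give equal norm factors
-/

set_option autoImplicit false

namespace Pool.Agent.Lib.MP_1a91b9_nuI

variable [Pool.Agent.Lib.MP_1a91b9_nuT.CD]

open NumberField IsDedekindDomain WeierstrassCurve Pool.Agent.Lib.MP_1a91b9_nuT.CT
open Pool.Agent.Lib.MP_1a91b9_nuT.S9 (normFactor minChange minModel)

variable {N : Type*} [Field N] [NumberField N]

private theorem minU_ne (v : HeightOneSpectrum (𝓞 N)) {x : v.adicCompletion N} (hx : x ≠ 0) :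
    Valued.v x ≠ 0 := (Valuation.ne_zero_iff _).2 hx

private theorem minU_Δ_ne {F : Type*} [Field F] {W₀ : WeierstrassCurve F} (h : W₀.Δ ≠ 0)
    (C : VariableChange F) : (C • W₀).Δ ≠ 0 := by
  rw [variableChange_Δ]
  exact mul_ne_zero (pow_ne_zero _ (Units.ne_zero _)) h

private theorem minU_chg (v : HeightOneSpectrum (𝓞 N)) {W₀ : WeierstrassCurve (v.adicCompletion N)}
    (h : W₀.Δ ≠ 0) (C : VariableChange (v.adicCompletion N)) :
    WithZero.log (Valued.v (C • W₀).Δ) =
      -12 * WithZero.log (Valued.v (C.u : v.adicCompletion N)) + WithZero.log (Valued.v W₀.Δ) := by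
  have hu : Valued.v (((C.u⁻¹ : (v.adicCompletion N)ˣ) : v.adicCompletion N)) ≠ 0 :=
    minU_ne v (Units.ne_zero _)
  have hinv : WithZero.log (Valued.v (((C.u⁻¹ : (v.adicCompletion N)ˣ) : v.adicCompletion N))) =
      -WithZero.log (Valued.v (C.u : v.adicCompletion N)) := by
    rw [Units.val_inv_eq_inv_val, map_inv₀, WithZero.log_inv]
  rw [variableChange_Δ, map_mul, map_pow, WithZero.log_mul (pow_ne_zero _ hu) (minU_ne v h),
    WithZero.log_pow, hinv, nsmul_eq_mul]
  push_cast
  ring

private theorem minU_map (v : HeightOneSpectrum (𝓞 N)) (W : WeierstrassCurve N) :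
    (W.baseChange (v.adicCompletion N)).Δ = algebraMap N (v.adicCompletion N) W.Δ :=
  W.map_Δ (algebraMap N (v.adicCompletion N))

private theorem minU_map_ne (v : HeightOneSpectrum (𝓞 N)) {W : WeierstrassCurve N} (h : W.Δ ≠ 0) :
    (W.baseChange (v.adicCompletion N)).Δ ≠ 0 := by
  rw [minU_map]
  exact (map_ne_zero _).2 h

private theorem minU_range (v : HeightOneSpectrum (𝓞 N))
    (h6 : Valued.v (6 : v.adicCompletion N) = 1) (W : WeierstrassCurve N) (hΔ : W.Δ ≠ 0)
    (j : ℤ) (hj : HasJ W j) :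
    -12 < WithZero.log (Valued.v (minModel W v).Δ) ∧
      WithZero.log (Valued.v (minModel W v).Δ) ≤ 0 := by
  have hm : IsMinimal (v.adicCompletionIntegers N) (minModel W v) :=
    Pool.Agent.Lib.MP_1a91b9_nuT.S9.minModel_isMinimal W v
  have hne : (minModel W v).Δ ≠ 0 := minU_Δ_ne (minU_map_ne v hΔ) _
  have hj1 : HasJ (minModel W v) j := hasJ_change _ _ j (hasJ_map _ W j hj)
  refine ⟨min_gt v h6 _ hm hne j hj1, ?_⟩
  obtain ⟨r, hr⟩ := Δ_integral_of_isIntegral (v.adicCompletionIntegers N) (minModel W v)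
  have h1 : Valued.v (minModel W v).Δ ≤ 1 := by
    rw [← hr]
    exact r.2
  have h2 := (WithZero.log_le_log (minU_ne v hne) one_ne_zero).2 h1
  rwa [WithZero.log_one] at h2

theorem norm_eq_of_disc (v : HeightOneSpectrum (𝓞 N))
    (h6 : Valued.v (6 : v.adicCompletion N) = 1) (W W' : WeierstrassCurve N) (hΔ : W.Δ ≠ 0)
    (hΔ' : W'.Δ ≠ 0) (j j' : ℤ) (hj : HasJ W j) (hj' : HasJ W' j')
    (hr : Valued.v (algebraMap N (v.adicCompletion N) W.Δ) =
      Valued.v (algebraMap N (v.adicCompletion N) W'.Δ)) :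
    normFactor W v = normFactor W' v := by
  obtain ⟨a1, a2⟩ := minU_range v h6 W hΔ j hj
  obtain ⟨b1, b2⟩ := minU_range v h6 W' hΔ' j' hj'
  have e1 : WithZero.log (Valued.v (minModel W v).Δ) = _ := minU_chg v (minU_map_ne v hΔ) (minChange W v)
  have e2 : WithZero.log (Valued.v (minModel W' v).Δ) = _ := minU_chg v (minU_map_ne v hΔ') (minChange W' v)
  rw [minU_map] at e1 e2
  rw [← hr] at e2
  have h : WithZero.log (Valued.v ((minChange W v).u : v.adicCompletion N)) =
      WithZero.log (Valued.v ((minChange W' v).u : v.adicCompletion N)) := by omega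
  rw [normFactor, normFactor, h]

theorem norm_vc (v : HeightOneSpectrum (𝓞 N)) (W : WeierstrassCurve N) (hΔ : W.Δ ≠ 0)
    (D : VariableChange N) :
    normFactor (D • W) v = normFactor W v * (Ideal.absNorm v.asIdeal : ℝ) ^
      (WithZero.log (Valued.v (algebraMap N (v.adicCompletion N) (D.u : N)))) := by
  have hWv : (W.baseChange (v.adicCompletion N)).Δ ≠ 0 := minU_map_ne v hΔ
  have hq : (Ideal.absNorm v.asIdeal : ℝ) ≠ 0 := by
    have : Ideal.absNorm v.asIdeal ≠ 0 := by
      rw [Ne, Ideal.absNorm_eq_zero_iff]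
      exact v.ne_bot
    exact_mod_cast this
  obtain ⟨Dv, hDv⟩ : ∃ Dv, Dv = D.map (algebraMap N (v.adicCompletion N)) := ⟨_, rfl⟩
  have hbc : (D • W).baseChange (v.adicCompletion N) = Dv • W.baseChange (v.adicCompletion N) := by
    rw [hDv]
    exact (W.map_variableChange D (algebraMap N (v.adicCompletion N))).symm
  have hM1 : minModel (D • W) v =
      minChange (D • W) v • (Dv • W.baseChange (v.adicCompletion N)) := by
    rw [← hbc]
    rfl
  have hM2 : minModel W v = minChange W v • W.baseChange (v.adicCompletion N) := rfl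
  have hE : minModel (D • W) v =
      (minChange (D • W) v * Dv * (minChange W v)⁻¹) • minModel W v := by
    rw [hM1, hM2, mul_smul, mul_smul, inv_smul_smul]
  have hE' : minModel W v =
      (minChange (D • W) v * Dv * (minChange W v)⁻¹)⁻¹ • minModel (D • W) v := by
    rw [hE, inv_smul_smul]
  have hm1 : IsMinimal (v.adicCompletionIntegers N) (minModel (D • W) v) :=
    Pool.Agent.Lib.MP_1a91b9_nuT.S9.minModel_isMinimal (D • W) v
  have hm2 : IsMinimal (v.adicCompletionIntegers N) (minModel W v) :=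
    Pool.Agent.Lib.MP_1a91b9_nuT.S9.minModel_isMinimal W v
  obtain ⟨I1, hI1⟩ := min_int _ hm1
  obtain ⟨I2, hI2⟩ := min_int _ hm2
  have hle1 : Valued.v (minModel W v).Δ ≤ Valued.v (minModel (D • W) v).Δ := by
    have hm : IsMinimal (v.adicCompletionIntegers N)
        ((minChange (D • W) v * Dv * (minChange W v)⁻¹) • minModel W v) := by
      rw [← hE]
      exact hm1
    have h := min_le (minModel W v) I2 hI2 _ hm
    rwa [← hE] at h
  have hle2 : Valued.v (minModel (D • W) v).Δ ≤ Valued.v (minModel W v).Δ := by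
    have hm : IsMinimal (v.adicCompletionIntegers N)
        ((minChange (D • W) v * Dv * (minChange W v)⁻¹)⁻¹ • minModel (D • W) v) := by
      rw [← hE']
      exact hm2
    have h := min_le (minModel (D • W) v) I1 hI1 _ hm
    rwa [← hE'] at h
  have heq : Valued.v (minModel (D • W) v).Δ = Valued.v (minModel W v).Δ := le_antisymm hle2 hle1
  have e1 := congrArg WithZero.log heq
  rw [hM1, hM2, minU_chg v (minU_Δ_ne hWv Dv), minU_chg v hWv, minU_chg v hWv] at e1
  have hu : (Dv.u : v.adicCompletion N) = algebraMap N (v.adicCompletion N) (D.u : N) := by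
    rw [hDv]
    rfl
  rw [hu] at e1
  rw [normFactor, normFactor, ← zpow_add₀ hq]
  have h : -WithZero.log (Valued.v ((minChange (D • W) v).u : v.adicCompletion N)) =
      -WithZero.log (Valued.v ((minChange W v).u : v.adicCompletion N)) +
        WithZero.log (Valued.v (algebraMap N (v.adicCompletion N) (D.u : N))) := by omega
  rw [h]

theorem norm_one (v : HeightOneSpectrum (𝓞 N)) (W : WeierstrassCurve N)
    (I : WeierstrassCurve (v.adicCompletionIntegers N))
    (hI : W.baseChange (v.adicCompletion N) = I.baseChange (v.adicCompletion N))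
    (hΔ : Valued.v (algebraMap N (v.adicCompletion N) W.Δ) = 1) : normFactor W v = 1 := by
  have hΔ1 : Valued.v (W.baseChange (v.adicCompletion N)).Δ = 1 := by
    rw [minU_map]
    exact hΔ
  have h := unit_min (W.baseChange (v.adicCompletion N)) I hI hΔ1 (minChange W v)
    (Pool.Agent.Lib.MP_1a91b9_nuT.S9.minModel_isMinimal W v)
  rw [normFactor, h.2, WithZero.log_one, neg_zero, zpow_zero]

end Pool.Agent.Lib.MP_1a91b9_nuI
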