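import Pool.Agent.Lib.MP_1a91b9_nuI.Pe.MinU

/-!
# Almost all norm factors are one; the norm of a number as a product over the places
-/

set_option autoImplicit false

namespace Pool.Agent.Lib.MP_1a91b9_nuI

variable [Pool.Agent.Lib.MP_1a91b9_nuT.CD]

open NumberField IsDedekindDomain WeierstrassCurve Pool.Agent.Lib.MP_1a91b9_nuT.CT
open Pool.Agent.Lib.MP_1a91b9_nuT.S9 (normFactor minChange minModel)

variable {N : Type*} [Field N] [NumberField N]

omit [Pool.Agent.Lib.MP_1a91b9_nuT.CD] in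
private theorem SupF_val (v : HeightOneSpectrum (𝓞 N)) (x : N) :
    Valued.v (algebraMap N (v.adicCompletion N) x) = v.valuation N x :=
  HeightOneSpectrum.valuedAdicCompletion_eq_valuation' v x

omit [Pool.Agent.Lib.MP_1a91b9_nuT.CD] in
private theorem SupF_emb (v : HeightOneSpectrum (𝓞 N)) (x : N) (hx : x ≠ 0) :
    (Ideal.absNorm v.asIdeal : ℝ) ^ (WithZero.log (v.valuation N x)) =
      (FinitePlace.equivHeightOneSpectrum.symm v) x := by
  have h0 : v.valuation N x ≠ 0 := (Valuation.ne_zero_iff _).2 hx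
  rw [FinitePlace.equivHeightOneSpectrum_symm_apply, FinitePlace.norm_embedding',
    WithZeroMulInt.toNNReal_neg_apply _ h0, WithZero.toAdd_unzero_eq_log]
  push_cast
  rfl

omit [Pool.Agent.Lib.MP_1a91b9_nuT.CD] in
private theorem SupF_one {v : HeightOneSpectrum (𝓞 N)} {x : N} (hx : x ≠ 0)
    (h : (FinitePlace.equivHeightOneSpectrum.symm v) x = 1) : v.valuation N x = 1 := by
  have h1 : (1 : ℝ) < (Ideal.absNorm v.asIdeal : ℝ) := by
    exact_mod_cast NumberField.HeightOneSpectrum.one_lt_absNorm v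
  rw [← SupF_emb v x hx] at h
  have h2 := (zpow_eq_one_iff_right₀ (by linarith) h1.ne').1 h
  have h4 := WithZero.exp_log ((Valuation.ne_zero_iff (v.valuation N)).2 hx)
  rw [h2, WithZero.exp_zero] at h4
  exact h4.symm

theorem supp_val (x : N) (hx : x ≠ 0) :
    {v : HeightOneSpectrum (𝓞 N) |
      Valued.v (algebraMap N (v.adicCompletion N) x) ≠ 1}.Finite := by
  have h1 : (Function.mulSupport fun w : FinitePlace N => w x).Finite :=
    FinitePlace.hasFiniteMulSupport hx
  refine (h1.image FinitePlace.equivHeightOneSpectrum).subset ?_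
  intro v hv
  refine ⟨FinitePlace.equivHeightOneSpectrum.symm v, ?_, Equiv.apply_symm_apply _ _⟩
  intro h2
  apply hv
  rw [SupF_val]
  exact SupF_one hx h2

private theorem SupF_int (x : N) :
    {v : HeightOneSpectrum (𝓞 N) |
      ¬ Valued.v (algebraMap N (v.adicCompletion N) x) ≤ 1}.Finite := by
  by_cases hx : x = 0
  · have e : {v : HeightOneSpectrum (𝓞 N) |
        ¬ Valued.v (algebraMap N (v.adicCompletion N) x) ≤ 1} = ∅ := by
      ext v
      simp [hx]
    rw [e]
    exact Set.finite_empty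
  · refine (supp_val x hx).subset fun v hv h => hv ?_
    exact h.le

theorem supp_norm (W : WeierstrassCurve N) (hΔ : W.Δ ≠ 0) :
    (Function.mulSupport fun v : HeightOneSpectrum (𝓞 N) => normFactor W v).Finite := by
  refine ((supp_val W.Δ hΔ).union ((SupF_int W.a₁).union ((SupF_int W.a₂).union
    ((SupF_int W.a₃).union ((SupF_int W.a₄).union (SupF_int W.a₆)))))).subset ?_
  intro v hv
  by_contra hc
  simp only [Set.mem_union, Set.mem_ofPred_eq, not_or, not_not] at hc
  obtain ⟨h0, h1, h2, h3, h4, h6⟩ := hc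
  apply hv
  exact norm_one v W ⟨⟨_, h1⟩, ⟨_, h2⟩, ⟨_, h3⟩, ⟨_, h4⟩, ⟨_, h6⟩⟩ (by ext <;> rfl) h0

theorem prod_val (x : N) (hx : x ≠ 0) :
    ∏ᶠ v : HeightOneSpectrum (𝓞 N), (Ideal.absNorm v.asIdeal : ℝ) ^
      (WithZero.log (Valued.v (algebraMap N (v.adicCompletion N) x))) =
        |(Algebra.norm ℚ x : ℝ)|⁻¹ := by
  have h1 : ∏ᶠ v : HeightOneSpectrum (𝓞 N), (Ideal.absNorm v.asIdeal : ℝ) ^
      (WithZero.log (Valued.v (algebraMap N (v.adicCompletion N) x))) =
      ∏ᶠ v : HeightOneSpectrum (𝓞 N), (FinitePlace.equivHeightOneSpectrum.symm v) x :=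
    finprod_congr fun v => by rw [SupF_val, SupF_emb v x hx]
  have h2 : ∏ᶠ v : HeightOneSpectrum (𝓞 N), (FinitePlace.equivHeightOneSpectrum.symm v) x =
      ∏ᶠ w : FinitePlace N, w x :=
    finprod_comp_equiv (f := fun w : FinitePlace N => w x)
      FinitePlace.equivHeightOneSpectrum.symm
  rw [h1, h2, FinitePlace.prod_eq_inv_abs_norm hx]
  push_cast
  rfl

end Pool.Agent.Lib.MP_1a91b9_nuI
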